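import Pool.Agent.Y749.Rig.FFe

/-! # Lower bounds for the mean of the form factor, and close pairs -/

set_option autoImplicit false

open MeasureTheory Set Filter Topology
open scoped NNReal ENNReal

namespace Pool.Agent.U252.PC

open Pool.Agent.Y749.Rig

section

variable {l : Filter ℝ} {G : ℝ → ℝ → ℝ} {H f : ℝ → ℝ} {a b : ℝ}

/-- lower bounds for the means give lower bounds for weighted means -/
lemma low_weight (hGc : ∀ T, Continuous (G T)) (hG0 : ∀ᶠ T in l, ∀ α, 0 ≤ G T α)
    (hHc : Continuous H) (hH0 : ∀ α, 0 ≤ H α) (hab : a < b)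
    (hlow : ∀ a' b' : ℝ, a ≤ a' → a' < b' → b' ≤ b → ∀ ε : ℝ, 0 < ε → ∀ᶠ T in l,
      (∫ α in a'..b', H α) - ε ≤ ∫ α in a'..b', G T α)
    (hf : Continuous f) (hf0 : ∀ x ∈ Icc a b, 0 ≤ f x) {ε : ℝ} (hε : 0 < ε) :
    ∀ᶠ T in l, (∫ α in a..b, f α * H α) - ε ≤ ∫ α in a..b, f α * G T α := by
  obtain ⟨J, hJ⟩ : ∃ J : ℝ, J = ∫ α in a..b, H α := ⟨_, rfl⟩
  have hJ0 : 0 ≤ J := by
    rw [hJ]
    exact intervalIntegral.integral_nonneg hab.le fun x _ => hH0 x
  obtain ⟨ω, hω⟩ : ∃ ω : ℝ, ω = ε / (4 * (J + 1)) := ⟨_, rfl⟩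
  have hω0 : 0 < ω := by rw [hω]; positivity
  have huc := (isCompact_Icc (a := a) (b := b)).uniformContinuousOn_of_continuous hf.continuousOn
  rw [Metric.uniformContinuousOn_iff] at huc
  obtain ⟨δ, hδ, hδf⟩ := huc ω hω0
  obtain ⟨M, hM⟩ := (isCompact_Icc (a := a) (b := b)).exists_bound_of_continuousOn hf.continuousOn
  have hM0 : 0 ≤ M := (norm_nonneg _).trans (hM a ⟨le_rfl, hab.le⟩)
  obtain ⟨n, hn⟩ := exists_nat_gt ((b - a) / δ)
  have hn0 : (0 : ℝ) < n := lt_of_le_of_lt (div_nonneg (by linarith) hδ.le) hn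
  have hstep : (b - a) / n < δ := by
    rw [div_lt_iff₀ hδ] at hn
    rw [div_lt_iff₀ hn0]
    linarith
  have hs0 : 0 < (b - a) / n := div_pos (by linarith) hn0
  obtain ⟨x, hx⟩ : ∃ x : ℕ → ℝ, ∀ k, x k = a + k * ((b - a) / n) := ⟨_, fun k => rfl⟩
  have hx0 : x 0 = a := by rw [hx]; simp
  have hxn : x n = b := by rw [hx]; field_simp; ring
  have hxs : ∀ k, x (k + 1) = x k + (b - a) / n := by
    intro k
    rw [hx, hx]
    push_cast; ring
  have hxa : ∀ k, a ≤ x k := by
    intro k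
    rw [hx]
    have : (0 : ℝ) ≤ k * ((b - a) / n) := by positivity
    linarith
  have hxb : ∀ k, k ≤ n → x k ≤ b := by
    intro k hk
    rw [← hxn, hx, hx]
    have : (k : ℝ) ≤ n := by exact_mod_cast hk
    have := mul_le_mul_of_nonneg_right this hs0.le
    linarith
  obtain ⟨e, he⟩ : ∃ e : ℝ, e = ε / (4 * n * (M + 1)) := ⟨_, rfl⟩
  have he0 : 0 < e := by rw [he]; positivity
  have hev : ∀ᶠ T in l, ∀ k ∈ Finset.range n, (∫ α in (x k)..(x (k + 1)), H α) - e ≤
      ∫ α in (x k)..(x (k + 1)), G T α := by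
    rw [Filter.eventually_all_finset]
    intro k hk
    rw [Finset.mem_range] at hk
    exact hlow (x k) (x (k + 1)) (hxa k) (by rw [hxs]; linarith) (hxb (k + 1) hk) e he0
  filter_upwards [hev, hG0] with T hT hT0
  have hci : ∀ {g : ℝ → ℝ}, Continuous g → ∀ p q : ℝ, IntervalIntegrable g volume p q :=
    fun hg p q => hg.intervalIntegrable p q
  have c1 : Continuous fun α => f α * G T α := hf.mul (hGc T)
  have c2 : Continuous fun α => f α * H α := hf.mul hHc
  have c3 : Continuous fun α => 2 * ω * H α := continuous_const.mul hHc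
  have c4 : Continuous fun α => f α * H α - 2 * ω * H α := c2.sub c3
  have s1 : ∑ k ∈ Finset.range n, ∫ α in (x k)..(x (k + 1)), f α * G T α =
      ∫ α in a..b, f α * G T α := by
    rw [intervalIntegral.sum_integral_adjacent_intervals fun k _ => hci c1 _ _, hx0, hxn]
  have s2 : ∑ k ∈ Finset.range n, ∫ α in (x k)..(x (k + 1)), (f α * H α - 2 * ω * H α) =
      ∫ α in a..b, (f α * H α - 2 * ω * H α) := by
    rw [intervalIntegral.sum_integral_adjacent_intervals fun k _ => hci c4 _ _, hx0, hxn]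
  have hpiece : ∀ k ∈ Finset.range n, (∫ α in (x k)..(x (k + 1)), (f α * H α - 2 * ω * H α)) -
      M * e ≤ ∫ α in (x k)..(x (k + 1)), f α * G T α := by
    intro k hk
    have hk1 := hT k hk
    rw [Finset.mem_range] at hk
    have hle : x k ≤ x (k + 1) := by rw [hxs]; linarith
    have hmem : ∀ α ∈ Icc (x k) (x (k + 1)), α ∈ Icc a b := fun α hα =>
      ⟨(hxa k).trans hα.1, hα.2.trans (hxb (k + 1) hk)⟩
    have hclose : ∀ α ∈ Icc (x k) (x (k + 1)), |f α - f (x k)| < ω := by
      intro α hα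
      have h1 := hδf α (hmem α hα) (x k) (hmem _ ⟨le_rfl, hle⟩) (by
        rw [Real.dist_eq, abs_of_nonneg (by linarith [hα.1])]
        have := hα.2
        rw [hxs] at this
        linarith)
      rwa [Real.dist_eq] at h1
    have hH1 : 0 ≤ ∫ α in (x k)..(x (k + 1)), H α :=
      intervalIntegral.integral_nonneg hle fun α _ => hH0 α
    obtain ⟨v, hv⟩ : ∃ v : ℝ, v = f (x k) - ω := ⟨_, rfl⟩
    have hfk : f (x k) ≤ M := (le_abs_self _).trans (hM _ (hmem _ ⟨le_rfl, hle⟩))
    -- the upper bound for the left side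
    have u1 : ∫ α in (x k)..(x (k + 1)), (f α * H α - 2 * ω * H α) ≤
        v * ∫ α in (x k)..(x (k + 1)), H α := by
      rw [← intervalIntegral.integral_const_mul]
      refine intervalIntegral.integral_mono_on hle (hci c4 _ _)
        (hci (continuous_const.mul hHc) _ _) fun α hα => ?_
      have h1 := (abs_lt.1 (hclose α hα)).2
      have h2 : f α - 2 * ω ≤ v := by rw [hv]; linarith
      have h3 := mul_le_mul_of_nonneg_right h2 (hH0 α)
      linarith
    rcases le_or_gt v 0 with hv0 | hv0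
    · have h1 : 0 ≤ ∫ α in (x k)..(x (k + 1)), f α * G T α :=
        intervalIntegral.integral_nonneg hle fun α hα => mul_nonneg (hf0 α (hmem α hα)) (hT0 α)
      have h2 : v * ∫ α in (x k)..(x (k + 1)), H α ≤ 0 := mul_nonpos_of_nonpos_of_nonneg hv0 hH1
      have h3 : 0 ≤ M * e := by positivity
      linarith
    · have h1 : v * ∫ α in (x k)..(x (k + 1)), G T α ≤ ∫ α in (x k)..(x (k + 1)), f α * G T α := by
        rw [← intervalIntegral.integral_const_mul]
        refine intervalIntegral.integral_mono_on hle (hci (continuous_const.mul (hGc T)) _ _)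
          (hci c1 _ _) fun α hα => ?_
        have h1 := (abs_lt.1 (hclose α hα)).1
        have h2 : v ≤ f α := by rw [hv]; linarith
        exact mul_le_mul_of_nonneg_right h2 (hT0 α)
      have h2 := mul_le_mul_of_nonneg_left hk1 hv0.le
      have h3 : v * e ≤ M * e := mul_le_mul_of_nonneg_right (by rw [hv]; linarith) he0.le
      rw [mul_sub] at h2
      linarith
  have hsum := Finset.sum_le_sum hpiece
  rw [Finset.sum_sub_distrib, s1, s2, Finset.sum_const, Finset.card_range, nsmul_eq_mul,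
    intervalIntegral.integral_sub (hci c2 _ _) (hci c3 _ _),
    intervalIntegral.integral_const_mul, ← hJ] at hsum
  have e1 : 2 * ω * J ≤ ε / 2 := by
    rw [hω]
    have : 2 * (ε / (4 * (J + 1))) * J = ε / 2 * (J / (J + 1)) := by field_simp; ring
    rw [this]
    have h1 : J / (J + 1) ≤ 1 := by rw [div_le_one (by linarith)]; linarith
    nlinarith
  have e2 : (n : ℝ) * (M * e) ≤ ε / 4 := by
    rw [he]
    have : (n : ℝ) * (M * (ε / (4 * n * (M + 1)))) = ε / 4 * (M / (M + 1)) := by field_simp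
    rw [this]
    have h1 : M / (M + 1) ≤ 1 := by rw [div_le_one (by linarith)]; linarith
    nlinarith
  linarith

end

/-! ### The test function -/

/-- `ψ = fl (tr β)`, the function `sinc² (π β α)` -/
lemma ps_eq {β : ℝ} (hβ : 0 < β) (α : ℝ) : fl (tr β) α = Real.sinc (Real.pi * β * α) ^ 2 := by
  rcases eq_or_ne α 0 with rfl | h
  · rw [fl_tr_zero hβ]; simp
  · rw [fl_tr hβ h]
    have hpi := Real.pi_pos
    rw [Real.sinc_of_ne_zero (by positivity)]

lemma ps_le_one {β : ℝ} (hβ : 0 < β) (α : ℝ) : fl (tr β) α ≤ 1 := by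
  rw [ps_eq hβ]
  exact (sq_le_one_iff_abs_le_one _).2 (Real.abs_sinc_le_one _)

lemma ps_le {β : ℝ} (hβ : 0 < β) {α : ℝ} (hα : α ≠ 0) :
    fl (tr β) α ≤ 1 / (Real.pi * β * α) ^ 2 := by
  have hpi := Real.pi_pos
  rw [ps_eq hβ, Real.sinc_of_ne_zero (by positivity), div_pow]
  gcongr
  exact (sq_le_one_iff_abs_le_one _).2 (Real.abs_sin_le_one _)

lemma sinc_anti {x y : ℝ} (hx : 0 ≤ x) (hxy : x ≤ y) (hy : y ≤ Real.pi) :
    Real.sinc y ≤ Real.sinc x := by
  rcases hx.eq_or_lt with rfl | hx0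
  · rw [Real.sinc_zero]
    exact Real.sinc_le_one y
  · have hy0 : 0 < y := hx0.trans_le hxy
    rw [Real.sinc_of_ne_zero hx0.ne', Real.sinc_of_ne_zero hy0.ne']
    have hxy1 : x / y ≤ 1 := by rw [div_le_one hy0]; exact hxy
    have hxy0 : 0 ≤ x / y := by positivity
    have h := strictConcaveOn_sin_Icc.concaveOn.2
      (show (0 : ℝ) ∈ Icc 0 Real.pi from ⟨le_rfl, Real.pi_pos.le⟩)
      (show y ∈ Icc 0 Real.pi from ⟨hy0.le, hy⟩) (sub_nonneg.2 hxy1) hxy0
      (sub_add_cancel 1 (x / y))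
    simp only [smul_eq_mul, mul_zero, zero_add, Real.sin_zero] at h
    rw [div_mul_cancel₀ _ hy0.ne'] at h
    rw [div_le_div_iff₀ hy0 hx0]
    have h2 := mul_le_mul_of_nonneg_right h hy0.le
    have e : x / y * Real.sin y * y = Real.sin y * x := by field_simp
    linarith

lemma ps_anti {β : ℝ} (hβ : 0 < β) {x y : ℝ} (hx : 0 ≤ x) (hxy : x ≤ y) (hy : β * y ≤ 1) :
    fl (tr β) y ≤ fl (tr β) x := by
  have hpi := Real.pi_pos
  rw [ps_eq hβ, ps_eq hβ]
  have h1 : Real.pi * β * x ≤ Real.pi * β * y := by gcongr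
  have h2 : Real.pi * β * y ≤ Real.pi := by nlinarith
  have h3 := sinc_anti (show 0 ≤ Real.pi * β * x by positivity) h1 h2
  have h4 : 0 ≤ Real.sinc (Real.pi * β * y) := by
    have h5 := sinc_anti (show 0 ≤ Real.pi * β * y by
      have : 0 ≤ y := hx.trans hxy
      positivity) h2 le_rfl
    rw [Real.sinc_of_ne_zero Real.pi_pos.ne', Real.sin_pi, zero_div] at h5
    exact h5
  exact pow_le_pow_left₀ h4 h3 2

lemma ps_pos {β : ℝ} (hβ : 0 < β) {y : ℝ} (hy0 : 0 ≤ y) (hy : β * y < 1) : 0 < fl (tr β) y := by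
  have hpi := Real.pi_pos
  rw [ps_eq hβ]
  rcases hy0.eq_or_lt with rfl | h0
  · simp
  · rw [Real.sinc_of_ne_zero (by positivity)]
    have : 0 < Real.sin (Real.pi * β * y) :=
      Real.sin_pos_of_pos_of_lt_pi (by positivity) (by nlinarith)
    positivity

/-- the pairing with the test function is bounded by the number of close pairs -/
lemma pair_le {T β : ℝ} (hβ : 0 < β) :
    ∫ α, fl (tr β) α * Fr T α ≤ 1 / β * (Mp T).real (Icc (-β) β) := by
  have hfin := Mp_fin T
  rw [Fr_pair (fl_int (adm_tr hβ))]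
  have e : 1 / β * (Mp T).real (Icc (-β) β) =
      ∫ x, (Icc (-β) β).indicator (fun _ => 1 / β) x ∂(Mp T) := by
    rw [integral_indicator measurableSet_Icc, setIntegral_const, smul_eq_mul, mul_comm]
  rw [e]
  refine integral_mono_of_nonneg (ae_of_all _ fun x => ?_) ?_ (ae_of_all _ fun x => ?_)
  · show 0 ≤ fl (fl (tr β)) x * ww (2 * Real.pi * x / Real.log T)
    rw [inv_four (adm_tr hβ)]
    exact mul_nonneg (tr_nonneg hβ _) (ww_pos _).le
  · exact (integrable_const _).indicator measurableSet_Icc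
  · show fl (fl (tr β)) x * ww (2 * Real.pi * x / Real.log T) ≤ _
    rw [inv_four (adm_tr hβ)]
    by_cases hx : x ∈ Icc (-β) β
    · rw [indicator_of_mem hx]
      have h1 : tr β x ≤ 1 / β := by
        unfold tr
        apply div_le_div_of_nonneg_right _ hβ.le
        apply max_le (by norm_num)
        have : 0 ≤ |x| / β := by positivity
        linarith
      calc tr β x * ww (2 * Real.pi * x / Real.log T) ≤ tr β x * 1 :=
            mul_le_mul_of_nonneg_left (ww_le _) (tr_nonneg hβ _)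
        _ ≤ 1 / β := by rw [mul_one]; exact h1
    · rw [indicator_of_notMem hx]
      have h1 : β ≤ |x| := by
        by_contra hc
        push Not at hc
        exact hx ⟨(abs_lt.1 hc).1.le, (abs_lt.1 hc).2.le⟩
      rw [tr_supp hβ x h1, zero_mul]

end Pool.Agent.U252.PC
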