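import Pool.Agent.U252.PC.Low

/-! # Lower bounds for the mean of the form factor, and close pairs: the quantitative theorem -/

set_option autoImplicit false

open MeasureTheory Set Filter Topology
open scoped NNReal ENNReal

namespace Pool.Agent.U252.PC

open Pool.Agent.Y749.Rig

lemma tr_zero (h : ℝ) : tr h 0 = 1 / h := by unfold tr; simp

lemma cc_tr {h : ℝ} (hh : 0 < h) (h1 : h ≤ 1) : cc (tr h) = 1 / h + ∫ α, mn α * tr h α := by
  unfold cc
  rw [tr_zero]
  congr 1
  refine integral_congr_ae (ae_of_all _ fun α => ?_)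
  simp only
  rcases le_or_gt h |α| with h2 | h2
  · rw [tr_supp hh α h2]; simp
  · unfold mn
    rw [min_eq_left (by linarith)]

lemma tent_limRH (RH : RiemannHypothesis) {h : ℝ} (hh : 0 < h) (h1 : h < 1) :
    Tendsto (fun T => ∫ α, max 0 (h - |α|) * Fr T α) atTop
      (𝓝 (h + ∫ α, max 0 (h - |α|) * mn α)) := by
  have h2 := Fr_lim (tr_int hh) (fl_qd (adm_tr hh)) le_rfl (test_limRH RH (adm_tr hh) hh h1)
  rw [cc_tr hh h1.le] at h2
  have h3 := h2.const_mul (h ^ 2)
  have e1 : h ^ 2 * (1 / h + ∫ α, mn α * tr h α) = h + ∫ α, max 0 (h - |α|) * mn α := by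
    rw [mul_add, ← integral_const_mul]
    congr 1
    · field_simp
    · refine integral_congr_ae (ae_of_all _ fun α => ?_)
      simp only
      rw [← tent_eq hh]
      ring
  rw [e1] at h3
  refine h3.congr fun T => ?_
  rw [← integral_const_mul]
  refine integral_congr_ae (ae_of_all _ fun α => ?_)
  simp only
  rw [← tent_eq hh]
  ring

/-- the mass of the form factor at the origin, from below -/
lemma near0_low (RH : RiemannHypothesis) {δ η : ℝ} (hδ : 0 < δ) (hη : 0 < η) :
    ∀ᶠ T in atTop, 1 - η ≤ ∫ α in (-δ)..δ, Fr T α := by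
  obtain ⟨k, hk⟩ : ∃ k : ℝ, k = min (1 / 2) δ := ⟨_, rfl⟩
  have hk0 : 0 < k := by rw [hk]; exact lt_min (by norm_num) hδ
  have hk2 : k ≤ 1 / 2 := by rw [hk]; exact min_le_left _ _
  have hkδ : k ≤ δ := by rw [hk]; exact min_le_right _ _
  have hlim := (tent_limRH RH hk0 (by linarith))
  have h0 : 0 ≤ ∫ α, max 0 (k - |α|) * mn α :=
    integral_nonneg fun α => mul_nonneg (le_max_left _ _) (mn_nonneg α)
  have hev := hlim.eventually (lt_mem_nhds (show k * (1 - η) < k + ∫ α, max 0 (k - |α|) * mn α by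
    nlinarith [mul_pos hk0 hη]))
  filter_upwards [hev, eventually_ge_atTop 10] with T h1 hT
  have hF0 := Fr_nonneg hT
  have hFc := Fr_cont T
  have h2 : ∫ α, max 0 (k - |α|) * Fr T α ≤ k * ∫ α in (-δ)..δ, Fr T α := by
    rw [int_supp hδ (fun x hx => by
      rw [max_eq_left (by linarith), zero_mul]), ← intervalIntegral.integral_const_mul]
    refine intervalIntegral.integral_mono_on (by linarith)
      (Continuous.intervalIntegrable (by fun_prop) _ _)
      (Continuous.intervalIntegrable (by fun_prop) _ _) fun α _ => ?_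
    refine mul_le_mul_of_nonneg_right ?_ (hF0 α)
    exact max_le hk0.le (by linarith [abs_nonneg α])
  exact (le_of_mul_le_mul_left (h1.le.trans h2) hk0)

/-- lower bounds for the means -/
def MeanLow (l : Filter ℝ) (a₀ R : ℝ) : Prop := ∀ a b : ℝ, a₀ ≤ a → a < b → b ≤ R →
  ∀ ε : ℝ, 0 < ε → ∀ᶠ T in l, (∫ α in a..b, mn α) - ε ≤ ∫ α in a..b, Fr T α

lemma mn_int_le {p q : ℝ} (hpq : p ≤ q) : ∫ α in p..q, mn α ≤ q - p := by
  calc ∫ α in p..q, mn α ≤ ∫ α in p..q, (1 : ℝ) := by
        refine intervalIntegral.integral_mono_on hpq (mn_cont.intervalIntegrable _ _)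
          (by simp) fun α _ => mn_le α
    _ = _ := by simp

/-- Montgomery's theorem, windows inside `(0, 1)` -/
theorem low_in (RH : RiemannHypothesis) {a b : ℝ} (ha : 0 < a) (hab : a < b) (hb : b < 1)
    {ε : ℝ} (hε : 0 < ε) : ∀ᶠ T in atTop, (∫ α in a..b, mn α) - ε ≤ ∫ α in a..b, Fr T α := by
  obtain ⟨δ, hδ⟩ : ∃ δ : ℝ, δ = min (min (a / 2) ((b - a) / 4)) (ε / 8) := ⟨_, rfl⟩
  have hδ0 : 0 < δ := by
    rw [hδ]; exact lt_min (lt_min (by positivity) (by linarith)) (by positivity)
  have hδ1 : δ ≤ a / 2 := by rw [hδ]; exact (min_le_left _ _).trans (min_le_left _ _)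
  have hδ3 : δ ≤ (b - a) / 4 := by rw [hδ]; exact (min_le_left _ _).trans (min_le_right _ _)
  have hδ2 : δ ≤ ε / 8 := by rw [hδ]; exact min_le_right _ _
  obtain ⟨ψ, hψ⟩ : ∃ ψ : ℝ → ℝ, ∀ α, ψ α = (max 0 (b - |α|) - max 0 (b - δ - |α|) -
    max 0 (a + δ - |α|) + max 0 (a - |α|)) / δ := ⟨_, fun α => rfl⟩
  have hψc : Continuous ψ := by
    have : ψ = fun α => (max 0 (b - |α|) - max 0 (b - δ - |α|) -
      max 0 (a + δ - |α|) + max 0 (a - |α|)) / δ := funext hψ
    rw [this]
    fun_prop
  have hψ0 : ∀ α, 0 ≤ ψ α := by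
    intro α
    rw [hψ]
    apply div_nonneg _ hδ0.le
    rcases le_total b |α| with h1 | h1
    · rw [max_eq_left (by linarith), max_eq_left (by linarith), max_eq_left (by linarith),
        max_eq_left (by linarith)]
      norm_num
    · rw [max_eq_right (by linarith : 0 ≤ b - |α|)]
      rcases le_total (b - δ) |α| with h2 | h2
      · rw [max_eq_left (by linarith : b - δ - |α| ≤ 0),
          max_eq_left (by linarith : a + δ - |α| ≤ 0),
          max_eq_left (by linarith : a - |α| ≤ 0)]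
        linarith
      · rw [max_eq_right (by linarith : 0 ≤ b - δ - |α|)]
        rcases le_total (a + δ) |α| with h3 | h3
        · rw [max_eq_left (by linarith : a + δ - |α| ≤ 0), max_eq_left (by linarith : a - |α| ≤ 0)]
          linarith
        · rw [max_eq_right (by linarith : 0 ≤ a + δ - |α|)]
          have := le_max_right 0 (a - |α|)
          linarith
  have hψ1 : ∀ α, ψ α ≤ 1 := by
    intro α
    rw [hψ, div_le_one hδ0]
    rcases le_total b |α| with h1 | h1
    · rw [max_eq_left (by linarith), max_eq_left (by linarith), max_eq_left (by linarith),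
        max_eq_left (by linarith)]
      linarith
    · rw [max_eq_right (by linarith : 0 ≤ b - |α|)]
      rcases le_total (b - δ) |α| with h2 | h2
      · rw [max_eq_left (by linarith : b - δ - |α| ≤ 0),
          max_eq_left (by linarith : a + δ - |α| ≤ 0),
          max_eq_left (by linarith : a - |α| ≤ 0)]
        linarith
      · rw [max_eq_right (by linarith : 0 ≤ b - δ - |α|)]
        rcases le_total (a + δ) |α| with h3 | h3
        · rw [max_eq_left (by linarith : a + δ - |α| ≤ 0), max_eq_left (by linarith : a - |α| ≤ 0)]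
          linarith
        · rw [max_eq_right (by linarith : 0 ≤ a + δ - |α|)]
          have : max 0 (a - |α|) ≤ a + δ - |α| := max_le (by linarith) (by linarith)
          linarith
  have hψm : ∀ α ∈ Icc (a + δ) (b - δ), ψ α = 1 := by
    intro α hα
    have h0 : |α| = α := abs_of_pos (by linarith [hα.1])
    rw [hψ, h0, max_eq_right (by linarith [hα.2]), max_eq_right (by linarith [hα.2]),
      max_eq_left (by linarith [hα.1]), max_eq_left (by linarith [hα.1])]
    field_simp
    ring
  have hψs : ∀ α, b ≤ |α| → ψ α = 0 := by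
    intro α hα
    rw [hψ, max_eq_left (by linarith), max_eq_left (by linarith), max_eq_left (by linarith),
        max_eq_left (by linarith)]
    simp
  have hψz : ∀ α ∈ Icc (0 : ℝ) a, ψ α = 0 := by
    intro α hα
    have h0 : |α| = α := abs_of_nonneg hα.1
    rw [hψ, h0, max_eq_right (by linarith [hα.2]), max_eq_right (by linarith [hα.2]),
      max_eq_right (by linarith [hα.2]), max_eq_right (by linarith [hα.2])]
    field_simp
    ring
  have hψe : ∀ α, ψ (-α) = ψ α := fun α => by rw [hψ, hψ, abs_neg]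
  -- the limit
  have hsum : ∀ {g : ℝ → ℝ}, Continuous g → ∫ α, ψ α * g α = ((∫ α, max 0 (b - |α|) * g α) -
      (∫ α, max 0 (b - δ - |α|) * g α) - (∫ α, max 0 (a + δ - |α|) * g α) +
      ∫ α, max 0 (a - |α|) * g α) / δ := by
    intro g hg
    have i1 := tent_integrable b hg
    have i2 := tent_integrable (b - δ) hg
    have i3 := tent_integrable (a + δ) hg
    have i4 := tent_integrable a hg
    have i12 : Integrable fun α : ℝ => max 0 (b - |α|) * g α - max 0 (b - δ - |α|) * g α :=
      i1.sub i2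
    have i123 : Integrable fun α : ℝ => max 0 (b - |α|) * g α - max 0 (b - δ - |α|) * g α -
      max 0 (a + δ - |α|) * g α := i12.sub i3
    rw [← integral_sub i1 i2, ← integral_sub i12 i3,
      ← integral_add i123 i4, ← integral_div]
    refine integral_congr_ae (ae_of_all _ fun α => ?_)
    simp only
    rw [hψ]
    ring
  have hlim : Tendsto (fun T => ∫ α, ψ α * Fr T α) atTop (𝓝 (∫ α, ψ α * mn α)) := by
    have t1 := tent_limRH RH (h := b) (by linarith) hb
    have t2 := tent_limRH RH (h := b - δ) (by linarith) (by linarith)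
    have t3 := tent_limRH RH (h := a + δ) (by linarith) (by linarith)
    have t4 := tent_limRH RH (h := a) (by linarith) (by linarith)
    have t5 := (((t1.sub t2).sub t3).add t4).div_const δ
    have e1 : (b + (∫ α, max 0 (b - |α|) * mn α) - (b - δ + ∫ α, max 0 (b - δ - |α|) * mn α) -
        (a + δ + ∫ α, max 0 (a + δ - |α|) * mn α) + (a + ∫ α, max 0 (a - |α|) * mn α)) / δ =
        ∫ α, ψ α * mn α := by
      rw [hsum mn_cont]
      ring
    rw [e1] at t5
    refine t5.congr fun T => ?_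
    rw [hsum (Fr_cont T)]
  have hhalf : ∀ {g : ℝ → ℝ}, Continuous g → (∀ α, g (-α) = g α) →
      ∫ α, ψ α * g α = 2 * ∫ α in a..b, ψ α * g α := by
    intro g hg hge
    have c1 : Continuous fun α => ψ α * g α := hψc.mul hg
    have ci : ∀ p q : ℝ, IntervalIntegrable (fun α => ψ α * g α) volume p q :=
      fun p q => c1.intervalIntegrable p q
    rw [int_supp (show 0 < b by linarith) (fun x hx => by rw [hψs x hx, zero_mul]),
      ← intervalIntegral.integral_add_adjacent_intervals (b := 0) (ci _ _) (ci _ _)]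
    have h7 : ∫ α in (-b)..0, ψ α * g α = ∫ α in (0 : ℝ)..b, ψ α * g α := by
      have h6 := intervalIntegral.integral_comp_neg (a := 0) (b := b)
        (fun α => ψ α * g α)
      rw [neg_zero] at h6
      rw [← h6]
      refine intervalIntegral.integral_congr fun α _ => ?_
      show ψ (-α) * g (-α) = ψ α * g α
      rw [hψe, hge]
    rw [h7, ← intervalIntegral.integral_add_adjacent_intervals (b := a) (ci 0 a) (ci _ _)]
    have z0 : ∫ α in (0 : ℝ)..a, ψ α * g α = 0 := by
      rw [intervalIntegral.integral_congr (g := fun _ => (0 : ℝ))]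
      · simp
      · intro α hα
        rw [uIcc_of_le (by linarith)] at hα
        show ψ α * g α = 0
        rw [hψz α hα, zero_mul]
    rw [z0]
    ring
  have hmn : (∫ α in a..b, mn α) - 2 * δ ≤ ∫ α in a..b, ψ α * mn α := by
    have ci : ∀ {g : ℝ → ℝ}, Continuous g → ∀ p q : ℝ, IntervalIntegrable g volume p q :=
      fun hg p q => hg.intervalIntegrable p q
    have c1 : Continuous fun α => ψ α * mn α := hψc.mul mn_cont
    have s1 := intervalIntegral.integral_add_adjacent_intervals (ci mn_cont a (a + δ))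
      (ci mn_cont (a + δ) b)
    have s2 := intervalIntegral.integral_add_adjacent_intervals (ci mn_cont (a + δ) (b - δ))
      (ci mn_cont (b - δ) b)
    have s3 := intervalIntegral.integral_add_adjacent_intervals (ci c1 a (a + δ))
      (ci c1 (a + δ) b)
    have s4 := intervalIntegral.integral_add_adjacent_intervals (ci c1 (a + δ) (b - δ))
      (ci c1 (b - δ) b)
    have z2 : ∫ α in (a + δ)..(b - δ), ψ α * mn α = ∫ α in (a + δ)..(b - δ), mn α := by
      refine intervalIntegral.integral_congr fun α hα => ?_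
      rw [uIcc_of_le (by linarith)] at hα
      show ψ α * mn α = mn α
      rw [hψm α hα, one_mul]
    have nn : ∀ p q : ℝ, p ≤ q → 0 ≤ ∫ α in p..q, ψ α * mn α := by
      intro p q hpq
      exact intervalIntegral.integral_nonneg hpq fun α _ => mul_nonneg (hψ0 α) (mn_nonneg α)
    have n1 := nn a (a + δ) (by linarith)
    have n2 := nn (b - δ) b (by linarith)
    have m1 := mn_int_le (show a ≤ a + δ by linarith)
    have m2 := mn_int_le (show b - δ ≤ b by linarith)
    linarith
  filter_upwards [hlim.eventually (lt_mem_nhds (show (∫ α, ψ α * mn α) - δ < ∫ α, ψ α * mn α by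
    linarith)), eventually_ge_atTop 10] with T h1 h2
  have hF0 := Fr_nonneg h2
  have hFc := Fr_cont T
  rw [hhalf hFc (Fr_even T), hhalf mn_cont mn_even] at h1
  have h3 : ∫ α in a..b, ψ α * Fr T α ≤ ∫ α in a..b, Fr T α := by
    refine intervalIntegral.integral_mono_on hab.le ((hψc.mul hFc).intervalIntegrable _ _)
      (hFc.intervalIntegrable _ _) fun α _ => ?_
    exact mul_le_of_le_one_left (hF0 α) (hψ1 α)
  linarith

/-- lower bounds on `[1, R]` imply lower bounds on `(0, R]` -/
theorem low_all (RH : RiemannHypothesis) {l : Filter ℝ} (hl : l ≤ atTop) {R : ℝ}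
    (h : MeanLow l 1 R) {a b : ℝ} (ha : 0 < a) (hab : a < b) (hb : b ≤ R) {ε : ℝ} (hε : 0 < ε) :
    ∀ᶠ T in l, (∫ α in a..b, mn α) - ε ≤ ∫ α in a..b, Fr T α := by
  rcases le_or_gt 1 a with h1 | h1
  · exact h a b h1 hab hb ε hε
  obtain ⟨δ, hδ⟩ : ∃ δ : ℝ, δ = min ((1 - a) / 2) (min ((b - a) / 2) (ε / 4)) := ⟨_, rfl⟩
  have hδ0 : 0 < δ := by
    rw [hδ]; exact lt_min (by linarith) (lt_min (by linarith) (by positivity))
  have hδ1 : δ ≤ (1 - a) / 2 := by rw [hδ]; exact min_le_left _ _
  have hδ2 : δ ≤ (b - a) / 2 := by rw [hδ]; exact (min_le_right _ _).trans (min_le_left _ _)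
  have hδ3 : δ ≤ ε / 4 := by rw [hδ]; exact (min_le_right _ _).trans (min_le_right _ _)
  have hG0 : ∀ᶠ T in l, ∀ α, 0 ≤ Fr T α :=
    hl ((eventually_ge_atTop 10).mono fun T hT α => Fr_nonneg hT α)
  have ci : ∀ {g : ℝ → ℝ}, Continuous g → ∀ p q : ℝ, IntervalIntegrable g volume p q :=
    fun hg p q => hg.intervalIntegrable p q
  rcases le_or_gt b 1 with h2 | h2
  · -- up to `b - δ`
    filter_upwards [hl (low_in RH ha (b := b - δ) (by linarith) (by linarith)
      (show 0 < ε / 2 by positivity)), hG0] with T h3 h4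
    have s1 := intervalIntegral.integral_add_adjacent_intervals (ci mn_cont a (b - δ))
      (ci mn_cont (b - δ) b)
    have s2 := intervalIntegral.integral_add_adjacent_intervals (ci (Fr_cont T) a (b - δ))
      (ci (Fr_cont T) (b - δ) b)
    have m1 := mn_int_le (show b - δ ≤ b by linarith)
    have n1 : 0 ≤ ∫ α in (b - δ)..b, Fr T α :=
      intervalIntegral.integral_nonneg (by linarith) fun α _ => h4 α
    linarith
  · filter_upwards [hl (low_in RH ha (b := 1 - δ) (by linarith) (by linarith)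
      (show 0 < ε / 4 by positivity)), hG0, h 1 b le_rfl h2 hb (ε / 4) (by positivity)]
      with T h3 h4 h5
    have s1 := intervalIntegral.integral_add_adjacent_intervals (ci mn_cont a (1 - δ))
      (ci mn_cont (1 - δ) 1)
    have s2 := intervalIntegral.integral_add_adjacent_intervals (ci (Fr_cont T) a (1 - δ))
      (ci (Fr_cont T) (1 - δ) 1)
    have s3 := intervalIntegral.integral_add_adjacent_intervals (ci mn_cont a 1)
      (ci mn_cont 1 b)
    have s4 := intervalIntegral.integral_add_adjacent_intervals (ci (Fr_cont T) a 1)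
      (ci (Fr_cont T) 1 b)
    have m1 := mn_int_le (show 1 - δ ≤ 1 by linarith)
    have n1 : 0 ≤ ∫ α in (1 - δ)..1, Fr T α :=
      intervalIntegral.integral_nonneg (by linarith) fun α _ => h4 α
    linarith

/-! ### The prediction -/

lemma one_sub_mn (α : ℝ) : 1 - mn α = max 0 (1 - |α|) := by
  unfold mn
  rcases le_total |α| 1 with h | h
  · rw [min_eq_left h, max_eq_right (by linarith)]
  · rw [min_eq_right h, max_eq_left (by linarith)]; ring

lemma int_tent1 : ∫ α : ℝ, max 0 (1 - |α|) = 1 := by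
  have h := int_tr (h := 1) one_pos
  refine Eq.trans ?_ h
  refine integral_congr_ae (ae_of_all _ fun α => ?_)
  simp only
  rw [← tent_eq one_pos]
  ring

/-- the prediction for the pairing with the test function -/
lemma pred_low {β : ℝ} (hβ : 0 < β) : 1 / β - 1 ≤ ∫ α, fl (tr β) α * mn α := by
  have hψi := fl_int (adm_tr hβ)
  have hψc := fl_cont (tr_int hβ)
  have i2 : Integrable fun α : ℝ => max 0 (1 - |α|) * fl (tr β) α := tent_integrable 1 hψc
  have e1 : ∀ α, fl (tr β) α * mn α = fl (tr β) α - max 0 (1 - |α|) * fl (tr β) α := by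
    intro α
    rw [← one_sub_mn]
    ring
  simp_rw [e1]
  rw [integral_sub hψi i2, int_fl (adm_tr hβ), tr_zero]
  have i3 : Integrable fun α : ℝ => max 0 (1 - |α|) := by
    have := tent_integrable 1 (g := fun _ => (1 : ℝ)) continuous_const
    simpa using this
  have h1 : ∫ α : ℝ, max 0 (1 - |α|) * fl (tr β) α ≤ ∫ α : ℝ, max 0 (1 - |α|) := by
    refine integral_mono i2 i3 fun α => ?_
    exact mul_le_of_le_one_right (le_max_left _ _) (ps_le_one hβ α)
  rw [int_tent1] at h1
  linarith

/-- the tail of the test function -/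
lemma tail_le {β R : ℝ} (hβ : 0 < β) (hR : 0 < R) :
    ∫ α in Ioi R, fl (tr β) α * mn α ≤ 1 / (Real.pi ^ 2 * β ^ 2 * R) := by
  have hpi := Real.pi_pos
  have h2 : (-2 : ℝ) < -1 := by norm_num
  have e : ∫ α in Ioi R, 1 / (Real.pi ^ 2 * β ^ 2) * α ^ (-2 : ℝ) = 1 / (Real.pi ^ 2 * β ^ 2 * R) := by
    rw [integral_const_mul, integral_Ioi_rpow_of_lt h2 hR]
    rw [show (-2 : ℝ) + 1 = -1 by norm_num, Real.rpow_neg_one]
    field_simp
  rw [← e]
  refine setIntegral_mono_on ?_ ?_ measurableSet_Ioi fun α hα => ?_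
  · refine Integrable.integrableOn ?_
    refine (fl_int (adm_tr hβ)).mul_bdd (c := 1) mn_cont.aestronglyMeasurable
      (ae_of_all _ fun x => ?_)
    rw [Real.norm_eq_abs, abs_of_nonneg (mn_nonneg x)]
    exact mn_le x
  · exact (integrableOn_Ioi_rpow_of_lt h2 hR).const_mul _
  · have hα0 : 0 < α := hR.trans hα
    have h3 := ps_le hβ hα0.ne'
    have h4 : 0 ≤ fl (tr β) α := fl_tr_nonneg hβ α
    calc fl (tr β) α * mn α ≤ fl (tr β) α := mul_le_of_le_one_right h4 (mn_le α)
      _ ≤ 1 / (Real.pi * β * α) ^ 2 := h3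
      _ = 1 / (Real.pi ^ 2 * β ^ 2) * α ^ (-2 : ℝ) := by
        rw [Real.rpow_neg hα0.le, Real.rpow_two]
        field_simp

/-- the prediction on a finite range -/
lemma pred_fin {β R : ℝ} (hβ : 0 < β) (hR : 0 < R) :
    (1 / β - 1) / 2 - 1 / (Real.pi ^ 2 * β ^ 2 * R) ≤ ∫ α in (0 : ℝ)..R, fl (tr β) α * mn α := by
  have h1 := pred_low hβ
  have h2 := tail_le hβ hR
  have hi : Integrable fun α : ℝ => fl (tr β) α * mn α := by
    refine (fl_int (adm_tr hβ)).mul_bdd (c := 1) mn_cont.aestronglyMeasurable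
      (ae_of_all _ fun x => ?_)
    rw [Real.norm_eq_abs, abs_of_nonneg (mn_nonneg x)]
    exact mn_le x
  have e1 : ∫ α, fl (tr β) α * mn α = 2 * ∫ α in Ioi (0 : ℝ), fl (tr β) α * mn α := by
    have h3 := integral_comp_abs (f := fun α => fl (tr β) α * mn α)
    rw [← h3]
    refine integral_congr_ae (ae_of_all _ fun α => ?_)
    simp only
    rcases le_total 0 α with h | h
    · rw [abs_of_nonneg h]
    · rw [abs_of_nonpos h, fl_even, mn_even]
  have e2 : ∫ α in Ioi (0 : ℝ), fl (tr β) α * mn α = (∫ α in (0 : ℝ)..R, fl (tr β) α * mn α) +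
      ∫ α in Ioi R, fl (tr β) α * mn α := by
    rw [intervalIntegral.integral_of_le hR.le, ← setIntegral_union (by
      rw [Set.disjoint_left]; intro x hx hy; exact absurd hx.2 (not_le.2 hy)) measurableSet_Ioi
      hi.integrableOn hi.integrableOn, Ioc_union_Ioi_eq_Ioi hR.le]
  rw [e1, e2] at h1
  linarith

/-! ### The quantitative theorem -/

/-- **Lower bounds for the mean of the form factor and few close pairs give upper bounds.** -/
theorem quant_low (RH : RiemannHypothesis) {l : Filter ℝ} (hl : l ≤ atTop) {R : ℝ}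
    (hlow : MeanLow l 1 R) {β p : ℝ} (hβ : 0 < β)
    (hrep : ∀ ε : ℝ, 0 < ε → ∀ᶠ T in l, (Mp T).real (Icc (-β) β) ≤ 1 + p + ε)
    {a b : ℝ} (ha : 0 < a) (hab : a < b) (hbR : b ≤ R) (hb : β * b < 1) {ε : ℝ} (hε : 0 < ε) :
    ∀ᶠ T in l, ∫ α in a..b, Fr T α ≤ (∫ α in a..b, mn α) +
      (p / (2 * β) + 1 / (Real.pi ^ 2 * β ^ 2 * R)) / fl (tr β) b + ε := by
  have hb0 : 0 < b := ha.trans hab
  have hR0 : 0 < R := hb0.trans_le hbR
  have hG0 : ∀ᶠ T in l, ∀ α, 0 ≤ Fr T α :=
    hl ((eventually_ge_atTop 10).mono fun T hT α => Fr_nonneg hT α)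
  have hpc : Continuous (fl (tr β)) := fl_cont (tr_int hβ)
  have hp0 : ∀ x, 0 ≤ fl (tr β) x := fl_tr_nonneg hβ
  have hp1 : ∀ x, fl (tr β) x ≤ 1 := ps_le_one hβ
  obtain ⟨w, hw⟩ : ∃ w : ℝ, w = fl (tr β) b := ⟨_, rfl⟩
  have hw0 : 0 < w := by rw [hw]; exact ps_pos hβ hb0.le hb
  rw [← hw]
  obtain ⟨e, he⟩ : ∃ e : ℝ, e = min 1 (ε * w / (16 * (1 + 1 / β))) := ⟨_, rfl⟩
  have he0 : 0 < e := by rw [he]; exact lt_min one_pos (by positivity)
  have he1 : e ≤ 1 := by rw [he]; exact min_le_left _ _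
  have he2 : e * (1 + 1 / β) ≤ ε * w / 16 := by
    have h1 : e ≤ ε * w / (16 * (1 + 1 / β)) := by rw [he]; exact min_le_right _ _
    have h2 : 0 < 1 + 1 / β := by positivity
    rw [le_div_iff₀ (by positivity)] at h1
    linarith
  -- near zero
  have hc0 : ∀ᶠ δ in 𝓝 (0 : ℝ), 1 - e < fl (tr β) δ := by
    have : Tendsto (fl (tr β)) (𝓝 0) (𝓝 (fl (tr β) 0)) := hpc.continuousAt
    rw [fl_tr_zero hβ] at this
    exact this.eventually (lt_mem_nhds (by linarith))
  rw [Metric.eventually_nhds_iff] at hc0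
  obtain ⟨δ0, hδ0, hδ0'⟩ := hc0
  obtain ⟨δ, hδ⟩ : ∃ δ : ℝ, δ = min (δ0 / 2) (min (a / 2) e) := ⟨_, rfl⟩
  have hδ1 : 0 < δ := by rw [hδ]; exact lt_min (by linarith) (lt_min (by positivity) he0)
  have hδ2 : δ < δ0 := by
    have : δ ≤ δ0 / 2 := by rw [hδ]; exact min_le_left _ _
    linarith
  have hδ3 : δ < a := by
    have : δ ≤ a / 2 := by rw [hδ]; exact (min_le_right _ _).trans (min_le_left _ _)
    linarith
  have hδ4 : δ ≤ e := by rw [hδ]; exact (min_le_right _ _).trans (min_le_right _ _)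
  have hnear := near0_low RH hδ1 he0
  have mk : ∀ a' b' : ℝ, 0 < a' → a' < b' → b' ≤ R → ∀ {f : ℝ → ℝ}, Continuous f →
      (∀ x ∈ Icc a' b', 0 ≤ f x) → ∀ᶠ T in l,
      (∫ α in a'..b', f α * mn α) - e ≤ ∫ α in a'..b', f α * Fr T α := by
    intro a' b' h1 h2 h3 f hf hf0
    exact low_weight (fun T => Fr_cont T) hG0 mn_cont mn_nonneg h2
      (fun a'' b'' g1 g2 g3 ε' hε' => low_all RH hl hlow (h1.trans_le g1) g2 (g3.trans h3) hε')
      hf hf0 he0
  have m1 := mk δ a hδ1 hδ3 (hab.le.trans hbR) hpc fun x _ => hp0 x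
  have m3 := mk a b ha hab hbR (f := fun x => fl (tr β) x - w) (hpc.sub continuous_const) (by
    intro x hx
    rw [hw]
    have := ps_anti hβ (ha.le.trans hx.1) hx.2 hb.le
    linarith)
  have m2 : ∀ᶠ T in l, (∫ α in b..R, fl (tr β) α * mn α) - e ≤
      ∫ α in b..R, fl (tr β) α * Fr T α := by
    rcases hbR.eq_or_lt with h | h
    · rw [← h]
      refine Eventually.of_forall fun T => ?_
      rw [intervalIntegral.integral_same, intervalIntegral.integral_same]
      linarith
    · exact mk b R hb0 h le_rfl hpc fun x _ => hp0 x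
  filter_upwards [m1, m2, m3, hl hnear, hrep e he0, hG0, hl (eventually_ge_atTop 10)]
    with T h1 h2 h3 h4 h5 hF0 hT
  have hFc := Fr_cont T
  have hci : ∀ {g : ℝ → ℝ}, Continuous g → ∀ p q : ℝ, IntervalIntegrable g volume p q :=
    fun hg p q => hg.intervalIntegrable p q
  have c1 : Continuous fun α => fl (tr β) α * Fr T α := hpc.mul hFc
  have c2 : Continuous fun α => fl (tr β) α * mn α := hpc.mul mn_cont
  have hfin := Mp_fin T
  -- the pairing
  have hpl := pair_le (T := T) hβ
  have hint : Integrable fun α => fl (tr β) α * Fr T α := by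
    obtain ⟨B, hB⟩ : ∃ B : ℝ, B = (Mp T).real univ := ⟨_, rfl⟩
    refine (fl_int (adm_tr hβ)).mul_bdd (c := B) hFc.aestronglyMeasurable
      (ae_of_all _ fun x => ?_)
    rw [hB]
    unfold Fr
    refine (norm_integral_le_integral_norm _).trans ?_
    have : ∫ y, ‖Real.cos (2 * Real.pi * x * y) * ww (2 * Real.pi * y / Real.log T)‖ ∂(Mp T) ≤
        ∫ y, (1 : ℝ) ∂(Mp T) := by
      refine integral_mono_of_nonneg (ae_of_all _ fun y => norm_nonneg _) (integrable_const _)
        (ae_of_all _ fun y => ?_)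
      show ‖Real.cos (2 * Real.pi * x * y) * ww (2 * Real.pi * y / Real.log T)‖ ≤ 1
      rw [norm_mul, Real.norm_eq_abs, Real.norm_eq_abs, abs_of_pos (ww_pos _)]
      exact mul_le_one₀ (Real.abs_cos_le_one _) (ww_pos _).le (ww_le _)
    refine this.trans ?_
    simp [Measure.real]
  have d0 : (∫ α in (-R)..R, fl (tr β) α * Fr T α) ≤ ∫ α, fl (tr β) α * Fr T α := by
    rw [intervalIntegral.integral_of_le (by linarith)]
    exact setIntegral_le_integral hint (ae_of_all _ fun α => mul_nonneg (hp0 α) (hF0 α))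
  have d1 : ∫ α in (-R)..R, fl (tr β) α * Fr T α = (∫ α in (-δ)..δ, fl (tr β) α * Fr T α) +
      2 * ((∫ α in δ..a, fl (tr β) α * Fr T α) + (∫ α in a..b, fl (tr β) α * Fr T α) +
        ∫ α in b..R, fl (tr β) α * Fr T α) := by
    rw [intervalIntegral.integral_add_adjacent_intervals (hci c1 _ _) (hci c1 _ _),
      intervalIntegral.integral_add_adjacent_intervals (hci c1 _ _) (hci c1 _ _)]
    rw [← intervalIntegral.integral_add_adjacent_intervals (a := -R) (b := -δ) (c := R)
      (hci c1 _ _) (hci c1 _ _), ← intervalIntegral.integral_add_adjacent_intervals (a := -δ)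
      (b := δ) (c := R) (hci c1 _ _) (hci c1 _ _)]
    have : ∫ α in (-R)..(-δ), fl (tr β) α * Fr T α = ∫ α in δ..R, fl (tr β) α * Fr T α := by
      have h6 := intervalIntegral.integral_comp_neg (a := δ) (b := R)
        (fun α => fl (tr β) α * Fr T α)
      rw [← h6]
      refine intervalIntegral.integral_congr fun α _ => ?_
      show fl (tr β) (-α) * Fr T (-α) = fl (tr β) α * Fr T α
      rw [fl_even, Fr_even]
    rw [this]
    ring
  have d2 : (1 - e) * (1 - e) ≤ ∫ α in (-δ)..δ, fl (tr β) α * Fr T α := by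
    calc (1 - e) * (1 - e) ≤ (1 - e) * ∫ α in (-δ)..δ, Fr T α :=
          mul_le_mul_of_nonneg_left h4 (by linarith)
      _ = ∫ α in (-δ)..δ, (1 - e) * Fr T α := (intervalIntegral.integral_const_mul _ _).symm
      _ ≤ ∫ α in (-δ)..δ, fl (tr β) α * Fr T α := by
          refine intervalIntegral.integral_mono_on (by linarith)
            (hci (continuous_const.mul hFc) _ _) (hci c1 _ _) fun α hα => ?_
          apply mul_le_mul_of_nonneg_right _ (hF0 α)
          refine (hδ0' ?_).le
          rw [dist_zero_right, Real.norm_eq_abs]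
          exact lt_of_le_of_lt (abs_le.2 ⟨hα.1, hα.2⟩) hδ2
  have d3 : ∫ α in (0 : ℝ)..R, fl (tr β) α * mn α = (∫ α in (0 : ℝ)..δ, fl (tr β) α * mn α) +
      (∫ α in δ..a, fl (tr β) α * mn α) + (∫ α in a..b, fl (tr β) α * mn α) +
        ∫ α in b..R, fl (tr β) α * mn α := by
    rw [intervalIntegral.integral_add_adjacent_intervals (hci c2 _ _) (hci c2 _ _),
      intervalIntegral.integral_add_adjacent_intervals (hci c2 _ _) (hci c2 _ _),
      intervalIntegral.integral_add_adjacent_intervals (hci c2 _ _) (hci c2 _ _)]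
  have d4 : ∫ α in (0 : ℝ)..δ, fl (tr β) α * mn α ≤ δ := by
    calc ∫ α in (0 : ℝ)..δ, fl (tr β) α * mn α ≤ ∫ α in (0 : ℝ)..δ, (1 : ℝ) := by
          refine intervalIntegral.integral_mono_on hδ1.le (hci c2 _ _) (by simp) fun α _ => ?_
          exact mul_le_one₀ (hp1 α) (mn_nonneg α) (mn_le α)
      _ = δ := by simp
  have d5 : ∀ g : ℝ → ℝ, Continuous g → ∫ α in a..b, (fl (tr β) α - w) * g α =
      (∫ α in a..b, fl (tr β) α * g α) - w * ∫ α in a..b, g α := by
    intro g hg
    have k1 : Continuous fun α => fl (tr β) α * g α := hpc.mul hg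
    have k2 : Continuous fun α => w * g α := continuous_const.mul hg
    rw [← intervalIntegral.integral_const_mul,
      ← intervalIntegral.integral_sub (hci k1 _ _) (hci k2 _ _)]
    refine intervalIntegral.integral_congr fun x _ => ?_
    ring
  rw [d5 _ hFc, d5 _ mn_cont] at h3
  have d6 := pred_fin hβ hR0
  have d7 : 1 / β * (Mp T).real (Icc (-β) β) ≤ 1 / β * (1 + p + e) :=
    mul_le_mul_of_nonneg_left h5 (by positivity)
  have d8 : 1 / β * (1 + p + e) = 1 / β + p / β + e * (1 / β) := by ring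
  rw [d8] at d7
  have d9 : p / (2 * β) = p / β / 2 := by field_simp
  -- the end
  have key : 2 * (w * (∫ α in a..b, Fr T α) - w * ∫ α in a..b, mn α) ≤
      p / β + 2 * (1 / (Real.pi ^ 2 * β ^ 2 * R)) + (e * (1 / β) + 2 * e + 2 * δ + 6 * e) := by
    have h7 : (1 - e) * (1 - e) ≥ 1 - 2 * e := by nlinarith
    linarith
  have k2 : w * ∫ α in a..b, Fr T α ≤ w * ((∫ α in a..b, mn α) +
      (p / (2 * β) + 1 / (Real.pi ^ 2 * β ^ 2 * R)) / w + ε) := by
    have e1 : w * ((∫ α in a..b, mn α) +
      (p / (2 * β) + 1 / (Real.pi ^ 2 * β ^ 2 * R)) / w + ε) = w * (∫ α in a..b, mn α) +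
      (p / (2 * β) + 1 / (Real.pi ^ 2 * β ^ 2 * R)) + ε * w := by
      field_simp
    rw [e1, d9]
    have h8 : e * (1 / β) + 2 * e + 2 * δ + 6 * e ≤ 2 * (ε * w) := by
      have h9 : 0 ≤ e * (1 / β) := by positivity
      have h10 : 0 < ε * w := by positivity
      rw [mul_add, mul_one] at he2
      linarith
    linarith
  exact le_of_mul_le_mul_left k2 hw0

end Pool.Agent.U252.PC
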