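import Pool.Agent.U252.PC.Low2
import Pool.Agent.Y749.Rig.FFf

/-! # The lower half of the pair correlation conjecture and close pairs -/

set_option autoImplicit false

open MeasureTheory Set Filter Topology
open scoped NNReal ENNReal

namespace Pool.Agent.U252.PC

open Pool.Agent.Y749.Rig

variable {l : Filter ℝ}

/-- few close pairs -/
def Rep (l : Filter ℝ) : Prop := ∀ ε : ℝ, 0 < ε → ∃ β : ℝ, 0 < β ∧ β < ε ∧
  ∀ᶠ T in l, (Mp T).real (Icc (-β) β) ≤ 1 + ε * β

lemma ps_quarter {β : ℝ} (hβ : 0 < β) {b : ℝ} (hb0 : 0 ≤ b) (hb : β * b ≤ 1 / 2) :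
    1 / 4 ≤ fl (tr β) b := by
  have hpi := Real.pi_pos
  rw [ps_eq hβ]
  have h1 := sinc_anti (show 0 ≤ Real.pi * β * b by positivity)
    (show Real.pi * β * b ≤ Real.pi / 2 by nlinarith) (by linarith)
  rw [Real.sinc_of_ne_zero (show Real.pi / 2 ≠ 0 by positivity), Real.sin_pi_div_two] at h1
  have h2 : (1 : ℝ) / 2 ≤ 1 / (Real.pi / 2) := by
    rw [div_le_div_iff₀ (by norm_num) (by positivity)]
    have := Real.pi_lt_d2
    linarith
  have h3 : (1 : ℝ) / 2 ≤ Real.sinc (Real.pi * β * b) := h2.trans h1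
  nlinarith

/-- the lower half and few close pairs imply the upper half -/
theorem up_of_low (RH : RiemannHypothesis) (hl : l ≤ atTop) (hlow : ∀ R : ℝ, MeanLow l 1 R)
    (hrep : Rep l) (R : ℝ) : MeanUp l R := by
  intro a b ha hab _ ε hε
  have hb0 : 0 < b := ha.trans hab
  have hpi := Real.pi_pos
  obtain ⟨β, hβ, hβ1, hN⟩ := hrep (min (ε / 8) (1 / (2 * b))) (lt_min (by positivity)
    (by positivity))
  obtain ⟨p, hp⟩ : ∃ p : ℝ, p = ε / 8 * β := ⟨_, rfl⟩
  have hβ2 : β * b ≤ 1 / 2 := by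
    have h1 : β < 1 / (2 * b) := hβ1.trans_le (min_le_right _ _)
    rw [lt_div_iff₀ (by positivity)] at h1
    linarith
  have hrep' : ∀ ε' : ℝ, 0 < ε' → ∀ᶠ T in l, (Mp T).real (Icc (-β) β) ≤ 1 + p + ε' := by
    intro ε' hε'
    filter_upwards [hN] with T hT
    have h1 : min (ε / 8) (1 / (2 * b)) * β ≤ p := by
      rw [hp]
      exact mul_le_mul_of_nonneg_right (min_le_left _ _) hβ.le
    linarith
  obtain ⟨R', hR'⟩ : ∃ R' : ℝ, R' = max b (16 / (Real.pi ^ 2 * β ^ 2 * ε)) := ⟨_, rfl⟩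
  have hR1 : b ≤ R' := by rw [hR']; exact le_max_left _ _
  have hR2 : 16 / (Real.pi ^ 2 * β ^ 2 * ε) ≤ R' := by rw [hR']; exact le_max_right _ _
  have hR0 : 0 < R' := hb0.trans_le hR1
  have h1 : 1 / (Real.pi ^ 2 * β ^ 2 * R') ≤ ε / 16 := by
    rw [div_le_iff₀ (by positivity)] at hR2
    rw [div_le_iff₀ (by positivity)]
    linarith
  have h2 := ps_quarter hβ hb0.le hβ2
  have h3 : (p / (2 * β) + 1 / (Real.pi ^ 2 * β ^ 2 * R')) / fl (tr β) b ≤ ε / 2 := by
    have e1 : p / (2 * β) = ε / 16 := by rw [hp]; field_simp; ring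
    rw [e1, div_le_iff₀ (by linarith)]
    nlinarith
  filter_upwards [quant_low RH hl (hlow R') hβ hrep' ha hab hR1 (by linarith)
    (show 0 < ε / 2 by positivity)] with T hT
  linarith

lemma gp_small {ε : ℝ} (hε : 0 < ε) : ∃ β : ℝ, 0 < β ∧ β < ε ∧
    2 * Pool.Agent.Y744.gp β < ε * β := by
  have h := Pool.Agent.Y744.gp_deriv 0
  have h0 : Pool.Agent.Y744.gd 0 = 0 := by
    unfold Pool.Agent.Y744.gd; simp
  rw [h0, hasDerivAt_iff_tendsto] at h
  have h1 := h.eventually (gt_mem_nhds (show (0 : ℝ) < ε / 2 by positivity))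
  rw [Metric.eventually_nhds_iff] at h1
  obtain ⟨δ, hδ, h2⟩ := h1
  obtain ⟨β, hβ⟩ : ∃ β : ℝ, β = min (δ / 2) (ε / 2) := ⟨_, rfl⟩
  have hβ0 : 0 < β := by rw [hβ]; exact lt_min (by positivity) (by positivity)
  have hβ1 : β ≤ δ / 2 := by rw [hβ]; exact min_le_left _ _
  have hβ2 : β ≤ ε / 2 := by rw [hβ]; exact min_le_right _ _
  refine ⟨β, hβ0, by linarith, ?_⟩
  have h3 := h2 (y := β) (by rw [dist_zero_right, Real.norm_eq_abs, abs_of_pos hβ0]; linarith)
  rw [Pool.Agent.Y744.gp_zero, sub_zero, sub_zero, smul_zero, sub_zero, Real.norm_eq_abs,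
    Real.norm_eq_abs, abs_of_pos hβ0, abs_of_nonneg (Pool.Agent.Y744.gp_nonneg hβ0.le)] at h3
  rw [inv_mul_lt_iff₀ hβ0] at h3
  linarith

/-- the conjecture implies the lower half and few close pairs -/
theorem low_of_lim (RH : RiemannHypothesis) (hl : l ≤ atTop)
    (h : ∀ α β, α < β → Tendsto (fun T => Pool.Agent.Y744.Nr T α β) l
      (𝓝 (Pool.Agent.Y744.pr α β))) :
    MeanLim l ∧ Rep l := by
  have hw := weak_win hl h
  refine ⟨mean_lim RH hl fun R => up_weak hl hw R, fun ε hε => ?_⟩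
  obtain ⟨β, hβ, hβε, h1⟩ := gp_small hε
  refine ⟨β, hβ, hβε, ?_⟩
  have h2 := Aa_lim hl hw β
  have e : Pool.Agent.Y744.AG β = 1 + 2 * Pool.Agent.Y744.gp β := by
    unfold Pool.Agent.Y744.AG
    rw [if_neg (not_lt.2 hβ.le)]
  rw [e] at h2
  filter_upwards [h2.eventually (gt_mem_nhds (show 1 + 2 * Pool.Agent.Y744.gp β < 1 + ε * β by
    linarith)), hl (eventually_ge_atTop 10)] with T hT hT10
  rw [Mp_Aa hT10]
  exact hT.le

lemma mn_int_one {a b : ℝ} (ha : 1 ≤ a) (hab : a ≤ b) : ∫ α in a..b, mn α = b - a := by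
  rw [intervalIntegral.integral_congr (g := fun _ => (1 : ℝ))]
  · simp
  · intro α hα
    rw [uIcc_of_le hab] at hα
    show mn α = 1
    unfold mn
    rw [abs_of_pos (by linarith [hα.1]), min_eq_right (by linarith [hα.1])]

/-- the form factor is at least `1 - ε` outside of a set of small measure -/
def MeasLow (l : Filter ℝ) : Prop := ∀ A ε η : ℝ, 0 < ε → 0 < η → ∀ᶠ T in l,
  volume.real {α : ℝ | 1 ≤ α ∧ α ≤ A ∧ Fr T α < 1 - ε} ≤ η

lemma meas_set (T A ε : ℝ) : MeasurableSet {α : ℝ | 1 ≤ α ∧ α ≤ A ∧ Fr T α < 1 - ε} := by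
  have h1 : IsOpen {α : ℝ | Fr T α < 1 - ε} := isOpen_lt (Fr_cont T) continuous_const
  exact (measurableSet_Ici.inter (measurableSet_Iic.inter h1.measurableSet))

/-- the integral of the negative part -/
lemma neg_part {T A ε η a b : ℝ} (hT : 10 ≤ T) (hε : 0 < ε)
    (h : volume.real {α : ℝ | 1 ≤ α ∧ α ≤ A ∧ Fr T α < 1 - ε} ≤ η) (ha : 1 ≤ a) (hab : a ≤ b)
    (hb : b ≤ A) : ∫ α in a..b, max 0 (1 - Fr T α) ≤ ε * (b - a) + η := by
  have hFc := Fr_cont T
  have hm := meas_set T A ε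
  have hfin : volume {α : ℝ | 1 ≤ α ∧ α ≤ A ∧ Fr T α < 1 - ε} < ⊤ :=
    lt_of_le_of_lt (measure_mono (t := Icc 1 A) fun x hx => ⟨hx.1, hx.2.1⟩) measure_Icc_lt_top
  have hi : Integrable ({α : ℝ | 1 ≤ α ∧ α ≤ A ∧ Fr T α < 1 - ε}.indicator fun _ => (1 : ℝ)) :=
    (integrableOn_const hfin.ne).integrable_indicator hm
  have h1 : ∫ α in a..b, max 0 (1 - Fr T α) ≤ ∫ α in a..b,
      (ε + {α : ℝ | 1 ≤ α ∧ α ≤ A ∧ Fr T α < 1 - ε}.indicator (fun _ => (1 : ℝ)) α) := by
    refine intervalIntegral.integral_mono_on hab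
      (Continuous.intervalIntegrable (by fun_prop) _ _)
      ((intervalIntegrable_const).add hi.intervalIntegrable) fun α hα => ?_
    by_cases hS : Fr T α < 1 - ε
    · rw [indicator_of_mem (show α ∈ {α : ℝ | 1 ≤ α ∧ α ≤ A ∧ Fr T α < 1 - ε} from
        ⟨ha.trans hα.1, hα.2.trans hb, hS⟩)]
      have := Fr_nonneg hT α
      exact max_le (by linarith) (by linarith)
    · rw [indicator_of_notMem (fun hc => hS hc.2.2)]
      push Not at hS
      exact max_le (by linarith) (by linarith)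
  refine h1.trans ?_
  rw [intervalIntegral.integral_add intervalIntegrable_const hi.intervalIntegrable,
    intervalIntegral.integral_const, smul_eq_mul, intervalIntegral.integral_of_le hab]
  have h2 : ∫ α in Ioc a b, {α : ℝ | 1 ≤ α ∧ α ≤ A ∧ Fr T α < 1 - ε}.indicator
      (fun _ => (1 : ℝ)) α ≤ ∫ α, {α : ℝ | 1 ≤ α ∧ α ≤ A ∧ Fr T α < 1 - ε}.indicator
      (fun _ => (1 : ℝ)) α :=
    setIntegral_le_integral hi (ae_of_all _ fun α => indicator_nonneg (fun _ _ => zero_le_one) α)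
  have e5 : ∫ α, {α : ℝ | 1 ≤ α ∧ α ≤ A ∧ Fr T α < 1 - ε}.indicator (fun _ => (1 : ℝ)) α =
      volume.real {α : ℝ | 1 ≤ α ∧ α ≤ A ∧ Fr T α < 1 - ε} := by
    rw [integral_indicator hm, setIntegral_const, smul_eq_mul, mul_one]
  rw [e5] at h2
  have h3 := h2.trans h
  nlinarith

lemma low_of_meas (hl : l ≤ atTop) (hlow : MeasLow l) (R : ℝ) : MeanLow l 1 R := by
  intro a b ha hab hb ε hε
  obtain ⟨e, he⟩ : ∃ e : ℝ, e = ε / (2 * (b - a)) := ⟨_, rfl⟩
  have hba : 0 < b - a := by linarith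
  have he0 : 0 < e := by rw [he]; positivity
  filter_upwards [hlow R e (ε / 2) he0 (by positivity), hl (eventually_ge_atTop 10)] with T h1 hT
  have h2 := neg_part hT he0 h1 ha hab.le hb
  have h3 : e * (b - a) = ε / 2 := by rw [he]; field_simp
  rw [h3] at h2
  have hFc := Fr_cont T
  have h4 : ∫ α in a..b, (1 - max 0 (1 - Fr T α)) ≤ ∫ α in a..b, Fr T α := by
    refine intervalIntegral.integral_mono_on hab.le
      (Continuous.intervalIntegrable (by fun_prop) _ _) (hFc.intervalIntegrable _ _) fun α _ => ?_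
    have := le_max_right 0 (1 - Fr T α)
    linarith
  rw [intervalIntegral.integral_sub intervalIntegrable_const
    (Continuous.intervalIntegrable (by fun_prop) _ _), intervalIntegral.integral_const,
    smul_eq_mul, mul_one] at h4
  rw [mn_int_one ha hab.le]
  linarith

/-- convergence in the mean of order one -/
theorem l1_lim (RH : RiemannHypothesis) (hl : l ≤ atTop) (hlow : MeasLow l)
    (hrep : Rep l) {A : ℝ} (hA : 1 < A) :
    Tendsto (fun T => ∫ α in (1 : ℝ)..A, |Fr T α - 1|) l (𝓝 0) := by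
  have hup := up_of_low RH hl (low_of_meas hl hlow) hrep A 1 A one_pos hA le_rfl
  rw [tendsto_order]
  constructor
  · intro c hc
    refine Eventually.of_forall fun T => hc.trans_le ?_
    exact intervalIntegral.integral_nonneg hA.le fun α _ => abs_nonneg _
  · intro c hc
    obtain ⟨e, he⟩ : ∃ e : ℝ, e = c / (8 * (A - 1)) := ⟨_, rfl⟩
    have hA1 : 0 < A - 1 := by linarith
    have he0 : 0 < e := by rw [he]; positivity
    filter_upwards [hlow A e (c / 8) he0 (by positivity), hl (eventually_ge_atTop 10),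
      hup (c / 4) (by positivity)] with T h1 hT h2
    have h3 := neg_part hT he0 h1 le_rfl hA.le le_rfl
    have h4 : e * (A - 1) = c / 8 := by rw [he]; field_simp
    rw [h4] at h3
    rw [mn_int_one le_rfl hA.le] at h2
    have hFc := Fr_cont T
    have hci : ∀ {g : ℝ → ℝ}, Continuous g → ∀ p q : ℝ, IntervalIntegrable g volume p q :=
      fun hg p q => hg.intervalIntegrable p q
    have e1 : ∫ α in (1 : ℝ)..A, |Fr T α - 1| = (∫ α in (1 : ℝ)..A, Fr T α) - (A - 1) +
        2 * ∫ α in (1 : ℝ)..A, max 0 (1 - Fr T α) := by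
      have e2 : ∀ α, |Fr T α - 1| = (Fr T α - 1) + 2 * max 0 (1 - Fr T α) := by
        intro α
        rcases le_total (Fr T α) 1 with h | h
        · rw [abs_of_nonpos (by linarith), max_eq_right (by linarith)]; ring
        · rw [abs_of_nonneg (by linarith), max_eq_left (by linarith)]; ring
      simp_rw [e2]
      rw [intervalIntegral.integral_add (hci (by fun_prop) _ _) (hci (by fun_prop) _ _),
        intervalIntegral.integral_sub (hci hFc _ _) intervalIntegrable_const,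
        intervalIntegral.integral_const_mul, intervalIntegral.integral_const]
      simp
    rw [e1]
    linarith

end Pool.Agent.U252.PC
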