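import Pool.Agent.U252.PC.Low3

/-! # The positive part of `F - 1` is controlled by the negative part and the close pairs -/

set_option autoImplicit false

open MeasureTheory Set Filter Topology
open scoped NNReal ENNReal

namespace Pool.Agent.U252.PC

open Pool.Agent.Y749.Rig

variable {l : Filter ℝ}

/-- the positive part of `F - mn` on `[κ, b]` and the negative part on `[κ, R]` -/
theorem quant_l1 (RH : RiemannHypothesis) (hl : l ≤ atTop) {κ R m : ℝ} (hκ0 : 0 < κ)
    (hκ1 : κ ≤ 1)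
    (hneg : ∀ ε : ℝ, 0 < ε → ∀ᶠ T in l, ∫ α in κ..R, max 0 (mn α - Fr T α) ≤ m + ε)
    {β p : ℝ} (hβ : 0 < β)
    (hrep : ∀ ε : ℝ, 0 < ε → ∀ᶠ T in l, (Mp T).real (Icc (-β) β) ≤ 1 + p + ε)
    {b : ℝ} (hb1 : κ ≤ b) (hbR : b ≤ R) (hb : β * b < 1) {ε : ℝ} (hε : 0 < ε) :
    ∀ᶠ T in l, ∫ α in κ..b, max 0 (Fr T α - mn α) ≤
      (m + p / (2 * β) + 1 / (Real.pi ^ 2 * β ^ 2 * R)) / fl (tr β) b + ε := by
  have hb0 : 0 < b := by linarith
  have hR0 : 0 < R := hb0.trans_le hbR
  have hR1 : κ ≤ R := hb1.trans hbR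
  have hG0 : ∀ᶠ T in l, ∀ α, 0 ≤ Fr T α :=
    hl ((eventually_ge_atTop 10).mono fun T hT α => Fr_nonneg hT α)
  have hpc : Continuous (fl (tr β)) := fl_cont (tr_int hβ)
  have hp0 : ∀ x, 0 ≤ fl (tr β) x := fl_tr_nonneg hβ
  have hp1 : ∀ x, fl (tr β) x ≤ 1 := ps_le_one hβ
  obtain ⟨w, hw⟩ : ∃ w : ℝ, w = fl (tr β) b := ⟨_, rfl⟩
  have hw0 : 0 < w := by rw [hw]; exact ps_pos hβ hb0.le hb
  rw [← hw]
  obtain ⟨e, he⟩ : ∃ e : ℝ, e = min 1 (ε * w / (16 * (1 + 1 / β))) := ⟨_, rfl⟩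
  have he0 : 0 < e := by rw [he]; exact lt_min one_pos (by positivity)
  have he1 : e ≤ 1 := by rw [he]; exact min_le_left _ _
  have he2 : e * (1 + 1 / β) ≤ ε * w / 16 := by
    have h1 : e ≤ ε * w / (16 * (1 + 1 / β)) := by rw [he]; exact min_le_right _ _
    have h2 : 0 < 1 + 1 / β := by positivity
    rw [le_div_iff₀ (by positivity)] at h1
    linarith
  -- near zero
  have hc0 : ∀ᶠ δ in 𝓝 (0 : ℝ), 1 - e < fl (tr β) δ := by
    have : Tendsto (fl (tr β)) (𝓝 0) (𝓝 (fl (tr β) 0)) := hpc.continuousAt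
    rw [fl_tr_zero hβ] at this
    exact this.eventually (lt_mem_nhds (by linarith))
  rw [Metric.eventually_nhds_iff] at hc0
  obtain ⟨δ0, hδ0, hδ0'⟩ := hc0
  obtain ⟨δ, hδ⟩ : ∃ δ : ℝ, δ = min (δ0 / 2) (min (κ / 2) e) := ⟨_, rfl⟩
  have hδ1 : 0 < δ := by rw [hδ]; exact lt_min (by linarith) (lt_min (by positivity) he0)
  have hδ2 : δ < δ0 := by
    have : δ ≤ δ0 / 2 := by rw [hδ]; exact min_le_left _ _
    linarith
  have hδ3 : δ < κ := by
    have : δ ≤ κ / 2 := by rw [hδ]; exact (min_le_right _ _).trans (min_le_left _ _)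
    linarith
  have hδ4 : δ ≤ e := by rw [hδ]; exact (min_le_right _ _).trans (min_le_right _ _)
  have hnear := near0_low RH hδ1 he0
  have hlow1 : MeanLow l 1 1 := fun a b h1 h2 h3 => by linarith
  have m1 : ∀ᶠ T in l, (∫ α in δ..κ, fl (tr β) α * mn α) - e ≤
      ∫ α in δ..κ, fl (tr β) α * Fr T α :=
    low_weight (fun T => Fr_cont T) hG0 mn_cont mn_nonneg hδ3
      (fun a'' b'' g1 g2 g3 ε' hε' => low_all RH hl hlow1 (hδ1.trans_le g1) g2
        (g3.trans hκ1) hε')
      hpc (fun x _ => hp0 x) he0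
  filter_upwards [m1, hneg e he0, hl hnear, hrep e he0, hG0, hl (eventually_ge_atTop 10)]
    with T h1 h2 h4 h5 hF0 hT
  have hFc := Fr_cont T
  have hci : ∀ {g : ℝ → ℝ}, Continuous g → ∀ p q : ℝ, IntervalIntegrable g volume p q :=
    fun hg p q => hg.intervalIntegrable p q
  have c1 : Continuous fun α => fl (tr β) α * Fr T α := hpc.mul hFc
  have c2 : Continuous fun α => fl (tr β) α * mn α := hpc.mul mn_cont
  have hfin := Mp_fin T
  -- the pairing
  have hpl := pair_le (T := T) hβ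
  have hint : Integrable fun α => fl (tr β) α * Fr T α := by
    obtain ⟨B, hB⟩ : ∃ B : ℝ, B = (Mp T).real univ := ⟨_, rfl⟩
    refine (fl_int (adm_tr hβ)).mul_bdd (c := B) hFc.aestronglyMeasurable
      (ae_of_all _ fun x => ?_)
    rw [hB]
    unfold Fr
    refine (norm_integral_le_integral_norm _).trans ?_
    have : ∫ y, ‖Real.cos (2 * Real.pi * x * y) * ww (2 * Real.pi * y / Real.log T)‖ ∂(Mp T) ≤
        ∫ y, (1 : ℝ) ∂(Mp T) := by
      refine integral_mono_of_nonneg (ae_of_all _ fun y => norm_nonneg _) (integrable_const _)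
        (ae_of_all _ fun y => ?_)
      show ‖Real.cos (2 * Real.pi * x * y) * ww (2 * Real.pi * y / Real.log T)‖ ≤ 1
      rw [norm_mul, Real.norm_eq_abs, Real.norm_eq_abs, abs_of_pos (ww_pos _)]
      exact mul_le_one₀ (Real.abs_cos_le_one _) (ww_pos _).le (ww_le _)
    refine this.trans ?_
    simp [Measure.real]
  have d0 : (∫ α in (-R)..R, fl (tr β) α * Fr T α) ≤ ∫ α, fl (tr β) α * Fr T α := by
    rw [intervalIntegral.integral_of_le (by linarith)]
    exact setIntegral_le_integral hint (ae_of_all _ fun α => mul_nonneg (hp0 α) (hF0 α))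
  have d1 : ∫ α in (-R)..R, fl (tr β) α * Fr T α = (∫ α in (-δ)..δ, fl (tr β) α * Fr T α) +
      2 * ((∫ α in δ..κ, fl (tr β) α * Fr T α) + ∫ α in κ..R, fl (tr β) α * Fr T α) := by
    rw [intervalIntegral.integral_add_adjacent_intervals (hci c1 _ _) (hci c1 _ _)]
    rw [← intervalIntegral.integral_add_adjacent_intervals (a := -R) (b := -δ) (c := R)
      (hci c1 _ _) (hci c1 _ _), ← intervalIntegral.integral_add_adjacent_intervals (a := -δ)
      (b := δ) (c := R) (hci c1 _ _) (hci c1 _ _)]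
    have : ∫ α in (-R)..(-δ), fl (tr β) α * Fr T α = ∫ α in δ..R, fl (tr β) α * Fr T α := by
      have h6 := intervalIntegral.integral_comp_neg (a := δ) (b := R)
        (fun α => fl (tr β) α * Fr T α)
      rw [← h6]
      refine intervalIntegral.integral_congr fun α _ => ?_
      show fl (tr β) (-α) * Fr T (-α) = fl (tr β) α * Fr T α
      rw [fl_even, Fr_even]
    rw [this]
    ring
  have d2 : (1 - e) * (1 - e) ≤ ∫ α in (-δ)..δ, fl (tr β) α * Fr T α := by
    calc (1 - e) * (1 - e) ≤ (1 - e) * ∫ α in (-δ)..δ, Fr T α :=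
          mul_le_mul_of_nonneg_left h4 (by linarith)
      _ = ∫ α in (-δ)..δ, (1 - e) * Fr T α := (intervalIntegral.integral_const_mul _ _).symm
      _ ≤ ∫ α in (-δ)..δ, fl (tr β) α * Fr T α := by
          refine intervalIntegral.integral_mono_on (by linarith)
            (hci (continuous_const.mul hFc) _ _) (hci c1 _ _) fun α hα => ?_
          apply mul_le_mul_of_nonneg_right _ (hF0 α)
          refine (hδ0' ?_).le
          rw [dist_zero_right, Real.norm_eq_abs]
          exact lt_of_le_of_lt (abs_le.2 ⟨hα.1, hα.2⟩) hδ2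
  have d3 : ∫ α in (0 : ℝ)..R, fl (tr β) α * mn α = (∫ α in (0 : ℝ)..δ, fl (tr β) α * mn α) +
      (∫ α in δ..κ, fl (tr β) α * mn α) + ∫ α in κ..R, fl (tr β) α * mn α := by
    rw [intervalIntegral.integral_add_adjacent_intervals (hci c2 _ _) (hci c2 _ _),
      intervalIntegral.integral_add_adjacent_intervals (hci c2 _ _) (hci c2 _ _)]
  have d4 : ∫ α in (0 : ℝ)..δ, fl (tr β) α * mn α ≤ δ := by
    calc ∫ α in (0 : ℝ)..δ, fl (tr β) α * mn α ≤ ∫ α in (0 : ℝ)..δ, (1 : ℝ) := by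
          refine intervalIntegral.integral_mono_on hδ1.le (hci c2 _ _) (by simp) fun α _ => ?_
          exact mul_le_one₀ (hp1 α) (mn_nonneg α) (mn_le α)
      _ = δ := by simp
  -- the two parts
  have cP : Continuous fun α => fl (tr β) α * max 0 (Fr T α - mn α) :=
    hpc.mul (continuous_const.max (hFc.sub mn_cont))
  have cN : Continuous fun α => fl (tr β) α * max 0 (mn α - Fr T α) :=
    hpc.mul (continuous_const.max (mn_cont.sub hFc))
  have d5 : ∫ α in κ..R, fl (tr β) α * Fr T α = (∫ α in κ..R, fl (tr β) α * mn α) +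
      (∫ α in κ..R, fl (tr β) α * max 0 (Fr T α - mn α)) -
      ∫ α in κ..R, fl (tr β) α * max 0 (mn α - Fr T α) := by
    have cQ : Continuous fun α => fl (tr β) α * mn α + fl (tr β) α * max 0 (Fr T α - mn α) :=
      c2.add cP
    rw [← intervalIntegral.integral_add (hci c2 _ _) (hci cP _ _),
      ← intervalIntegral.integral_sub (hci cQ _ _) (hci cN _ _)]
    refine intervalIntegral.integral_congr fun α _ => ?_
    rcases le_total (Fr T α) (mn α) with h | h
    · rw [max_eq_left (by linarith : Fr T α - mn α ≤ 0),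
        max_eq_right (by linarith : 0 ≤ mn α - Fr T α)]
      ring
    · rw [max_eq_right (by linarith : 0 ≤ Fr T α - mn α),
        max_eq_left (by linarith : mn α - Fr T α ≤ 0)]
      ring
  have d6 : ∫ α in κ..R, fl (tr β) α * max 0 (mn α - Fr T α) ≤ m + e := by
    refine le_trans ?_ h2
    refine intervalIntegral.integral_mono_on hR1 (hci cN _ _)
      (hci (continuous_const.max (mn_cont.sub hFc)) _ _) fun α _ => ?_
    exact mul_le_of_le_one_left (le_max_left _ _) (hp1 α)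
  have d7 : w * ∫ α in κ..b, max 0 (Fr T α - mn α) ≤
      ∫ α in κ..R, fl (tr β) α * max 0 (Fr T α - mn α) := by
    rw [← intervalIntegral.integral_const_mul,
      ← intervalIntegral.integral_add_adjacent_intervals (b := b) (hci cP κ b) (hci cP b R)]
    have k1 : ∫ α in κ..b, w * max 0 (Fr T α - mn α) ≤
        ∫ α in κ..b, fl (tr β) α * max 0 (Fr T α - mn α) := by
      refine intervalIntegral.integral_mono_on hb1
        (hci (continuous_const.mul (continuous_const.max (hFc.sub mn_cont))) _ _)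
        (hci cP _ _) fun α hα => ?_
      apply mul_le_mul_of_nonneg_right _ (le_max_left _ _)
      rw [hw]
      exact ps_anti hβ (by linarith [hα.1]) hα.2 hb.le
    have k2 : 0 ≤ ∫ α in b..R, fl (tr β) α * max 0 (Fr T α - mn α) :=
      intervalIntegral.integral_nonneg hbR fun α _ => mul_nonneg (hp0 α) (le_max_left _ _)
    linarith
  have d8 := pred_fin hβ hR0
  have d9 : 1 / β * (Mp T).real (Icc (-β) β) ≤ 1 / β * (1 + p + e) :=
    mul_le_mul_of_nonneg_left h5 (by positivity)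
  have d10 : 1 / β * (1 + p + e) = 1 / β + p / β + e * (1 / β) := by ring
  rw [d10] at d9
  have d11 : p / (2 * β) = p / β / 2 := by field_simp
  -- the end
  have key : 2 * (w * ∫ α in κ..b, max 0 (Fr T α - mn α)) ≤
      p / β + 2 * (1 / (Real.pi ^ 2 * β ^ 2 * R)) + 2 * m +
        (e * (1 / β) + 2 * e + 2 * δ + 4 * e) := by
    have h7 : (1 - e) * (1 - e) ≥ 1 - 2 * e := by nlinarith
    linarith
  have k2 : w * ∫ α in κ..b, max 0 (Fr T α - mn α) ≤ w *
      ((m + p / (2 * β) + 1 / (Real.pi ^ 2 * β ^ 2 * R)) / w + ε) := by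
    have e1 : w * ((m + p / (2 * β) + 1 / (Real.pi ^ 2 * β ^ 2 * R)) / w + ε) =
      (m + p / (2 * β) + 1 / (Real.pi ^ 2 * β ^ 2 * R)) + ε * w := by
      field_simp
    rw [e1, d11]
    have h8 : e * (1 / β) + 2 * e + 2 * δ + 4 * e ≤ 2 * (ε * w) := by
      have h9 : 0 ≤ e * (1 / β) := by positivity
      have h10 : 0 < ε * w := by positivity
      rw [mul_add, mul_one] at he2
      linarith
    linarith
  exact le_of_mul_le_mul_left k2 hw0

/-- the positive part is at most the negative part, if the zeros repel each other -/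
theorem pos_le_neg (RH : RiemannHypothesis) (hl : l ≤ atTop) {κ m : ℝ} (hκ0 : 0 < κ)
    (hκ1 : κ ≤ 1) (hm : 0 ≤ m)
    (hneg : ∀ A : ℝ, κ ≤ A → ∀ ε : ℝ, 0 < ε → ∀ᶠ T in l,
      ∫ α in κ..A, max 0 (mn α - Fr T α) ≤ m + ε)
    (hrep : Rep l) {b : ℝ} (hb1 : κ ≤ b) {ε : ℝ} (hε : 0 < ε) :
    ∀ᶠ T in l, ∫ α in κ..b, max 0 (Fr T α - mn α) ≤ m + ε := by
  have hpi := Real.pi_pos
  have hb0 : 0 < b := by linarith
  -- the quotient of the parameters
  obtain ⟨e, he⟩ : ∃ e : ℝ, e = min (1 / 2) (ε / (16 * (m + 1 + ε))) := ⟨_, rfl⟩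
  have he0 : 0 < e := by rw [he]; exact lt_min (by norm_num) (by positivity)
  have he1 : e ≤ 1 / 2 := by rw [he]; exact min_le_left _ _
  have he2 : e * (m + 1 + ε) ≤ ε / 16 := by
    have h1 : e ≤ ε / (16 * (m + 1 + ε)) := by rw [he]; exact min_le_right _ _
    rw [le_div_iff₀ (by positivity)] at h1
    linarith
  have hs : ∀ᶠ x in 𝓝 (0 : ℝ), 1 - e < Real.sinc x ^ 2 := by
    have h1 : Tendsto (fun x => Real.sinc x ^ 2) (𝓝 0) (𝓝 (Real.sinc 0 ^ 2)) :=
      (Real.continuous_sinc.pow 2).continuousAt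
    rw [Real.sinc_zero, one_pow] at h1
    exact h1.eventually (lt_mem_nhds (by linarith))
  rw [Metric.eventually_nhds_iff] at hs
  obtain ⟨s, hs0, hs'⟩ := hs
  obtain ⟨q, hq⟩ : ∃ q : ℝ, q = min (ε / 8) (min (1 / (2 * b)) (s / (Real.pi * b))) := ⟨_, rfl⟩
  have hq0 : 0 < q := by
    rw [hq]; exact lt_min (by positivity) (lt_min (by positivity) (by positivity))
  have hq1 : q ≤ ε / 8 := by rw [hq]; exact min_le_left _ _
  have hq2 : q ≤ 1 / (2 * b) := by rw [hq]; exact (min_le_right _ _).trans (min_le_left _ _)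
  have hq3 : q ≤ s / (Real.pi * b) := by
    rw [hq]; exact (min_le_right _ _).trans (min_le_right _ _)
  obtain ⟨β, hβ, hβ1, hN⟩ := hrep q hq0
  have hβ2 : β * b ≤ 1 / 2 := by
    have h1 : β < 1 / (2 * b) := hβ1.trans_le hq2
    rw [lt_div_iff₀ (by positivity)] at h1
    linarith
  have hβ3 : 1 - e < fl (tr β) b := by
    rw [ps_eq hβ]
    apply hs'
    rw [dist_zero_right, Real.norm_eq_abs, abs_of_pos (by positivity)]
    have h1 : β < s / (Real.pi * b) := hβ1.trans_le hq3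
    rw [lt_div_iff₀ (by positivity)] at h1
    linarith
  have hrep' : ∀ ε' : ℝ, 0 < ε' → ∀ᶠ T in l, (Mp T).real (Icc (-β) β) ≤ 1 + q * β + ε' := by
    intro ε' hε'
    filter_upwards [hN] with T hT
    linarith
  obtain ⟨R, hR⟩ : ∃ R : ℝ, R = max b (16 / (Real.pi ^ 2 * β ^ 2 * ε)) := ⟨_, rfl⟩
  have hR1 : b ≤ R := by rw [hR]; exact le_max_left _ _
  have hR2 : 16 / (Real.pi ^ 2 * β ^ 2 * ε) ≤ R := by rw [hR]; exact le_max_right _ _
  have hR0 : 0 < R := hb0.trans_le hR1
  have h1 : 1 / (Real.pi ^ 2 * β ^ 2 * R) ≤ ε / 16 := by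
    rw [div_le_iff₀ (by positivity)] at hR2
    rw [div_le_iff₀ (by positivity)]
    linarith
  have h3 : (m + q * β / (2 * β) + 1 / (Real.pi ^ 2 * β ^ 2 * R)) / fl (tr β) b ≤ m + ε / 2 := by
    have e1 : q * β / (2 * β) = q / 2 := by field_simp
    rw [e1, div_le_iff₀ (by linarith)]
    have h4 : (m + ε / 2) * (1 - e) ≤ (m + ε / 2) * fl (tr β) b :=
      mul_le_mul_of_nonneg_left hβ3.le (by positivity)
    have h5 : (m + ε / 2) * (1 - e) = m + ε / 2 - e * (m + ε / 2) := by ring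
    have h6 : e * (m + ε / 2) ≤ e * (m + 1 + ε) :=
      mul_le_mul_of_nonneg_left (by linarith) he0.le
    linarith
  filter_upwards [quant_l1 RH hl (R := R) (m := m) hκ0 hκ1 (hneg R (hb1.trans hR1)) hβ hrep'
    hb1 hR1 (by linarith) (show 0 < ε / 2 by positivity)] with T hT
  linarith

end Pool.Agent.U252.PC
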