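import Pool.Agent.U252.PC.Low4

/-! # The negative part of `F - min(α, 1)` is controlled by the positive part -/

set_option autoImplicit false

open MeasureTheory Set Filter Topology
open scoped NNReal ENNReal

namespace Pool.Agent.U252.PC

open Pool.Agent.Y749.Rig

variable {l : Filter ℝ}

/-- Montgomery's theorem, windows inside `(0, 1)`, upper bound -/
theorem up_in (RH : RiemannHypothesis) {a b : ℝ} (ha : 0 < a) (hab : a < b) (hb : b < 1)
    {ε : ℝ} (hε : 0 < ε) : ∀ᶠ T in atTop, ∫ α in a..b, Fr T α ≤ (∫ α in a..b, mn α) + ε := by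
  obtain ⟨δ, hδ⟩ : ∃ δ : ℝ, δ = min (min (a / 2) ((1 - b) / 2)) (ε / 8) := ⟨_, rfl⟩
  have hδ0 : 0 < δ := by
    rw [hδ]; exact lt_min (lt_min (by positivity) (by linarith)) (by positivity)
  have hδ1 : δ ≤ a / 2 := by rw [hδ]; exact (min_le_left _ _).trans (min_le_left _ _)
  have hδ4 : δ ≤ (1 - b) / 2 := by rw [hδ]; exact (min_le_left _ _).trans (min_le_right _ _)
  have hδ2 : δ ≤ ε / 8 := by rw [hδ]; exact min_le_right _ _
  obtain ⟨ψ, hψ⟩ : ∃ ψ : ℝ → ℝ, ∀ α, ψ α = (max 0 (b + δ - |α|) - max 0 (b - |α|) -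
    max 0 (a - |α|) + max 0 (a - δ - |α|)) / δ := ⟨_, fun α => rfl⟩
  have hψc : Continuous ψ := by
    have : ψ = fun α => (max 0 (b + δ - |α|) - max 0 (b - |α|) -
      max 0 (a - |α|) + max 0 (a - δ - |α|)) / δ := funext hψ
    rw [this]
    fun_prop
  have hψ0 : ∀ α, 0 ≤ ψ α := by
    intro α
    rw [hψ]
    apply div_nonneg _ hδ0.le
    rcases le_total (b + δ) |α| with h1 | h1
    · rw [max_eq_left (by linarith), max_eq_left (by linarith), max_eq_left (by linarith),
        max_eq_left (by linarith)]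
      norm_num
    · rw [max_eq_right (by linarith : 0 ≤ b + δ - |α|)]
      rcases le_total b |α| with h2 | h2
      · rw [max_eq_left (by linarith : b - |α| ≤ 0), max_eq_left (by linarith : a - |α| ≤ 0),
          max_eq_left (by linarith : a - δ - |α| ≤ 0)]
        linarith
      · rw [max_eq_right (by linarith : 0 ≤ b - |α|)]
        rcases le_total a |α| with h3 | h3
        · rw [max_eq_left (by linarith : a - |α| ≤ 0), max_eq_left (by linarith : a - δ - |α| ≤ 0)]
          linarith
        · rw [max_eq_right (by linarith : 0 ≤ a - |α|)]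
          have := le_max_right 0 (a - δ - |α|)
          linarith
  have hψ1 : ∀ α, ψ α ≤ 1 := by
    intro α
    rw [hψ, div_le_one hδ0]
    rcases le_total (b + δ) |α| with h1 | h1
    · rw [max_eq_left (by linarith), max_eq_left (by linarith), max_eq_left (by linarith),
        max_eq_left (by linarith)]
      linarith
    · rw [max_eq_right (by linarith : 0 ≤ b + δ - |α|)]
      rcases le_total b |α| with h2 | h2
      · rw [max_eq_left (by linarith : b - |α| ≤ 0), max_eq_left (by linarith : a - |α| ≤ 0),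
          max_eq_left (by linarith : a - δ - |α| ≤ 0)]
        linarith
      · rw [max_eq_right (by linarith : 0 ≤ b - |α|)]
        rcases le_total a |α| with h3 | h3
        · rw [max_eq_left (by linarith : a - |α| ≤ 0), max_eq_left (by linarith : a - δ - |α| ≤ 0)]
          linarith
        · rw [max_eq_right (by linarith : 0 ≤ a - |α|)]
          have : max 0 (a - δ - |α|) ≤ a - |α| := max_le (by linarith) (by linarith)
          linarith
  have hψm : ∀ α ∈ Icc a b, ψ α = 1 := by
    intro α hα
    have h0 : |α| = α := abs_of_pos (by linarith [hα.1])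
    rw [hψ, h0, max_eq_right (by linarith [hα.2]), max_eq_right (by linarith [hα.2]),
      max_eq_left (by linarith [hα.1]), max_eq_left (by linarith [hα.1])]
    field_simp
    ring
  have hψs : ∀ α, b + δ ≤ |α| → ψ α = 0 := by
    intro α hα
    rw [hψ, max_eq_left (by linarith), max_eq_left (by linarith), max_eq_left (by linarith),
        max_eq_left (by linarith)]
    simp
  have hψz : ∀ α ∈ Icc (0 : ℝ) (a - δ), ψ α = 0 := by
    intro α hα
    have h0 : |α| = α := abs_of_nonneg hα.1
    rw [hψ, h0, max_eq_right (by linarith [hα.2]), max_eq_right (by linarith [hα.2]),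
      max_eq_right (by linarith [hα.2]), max_eq_right (by linarith [hα.2])]
    field_simp
    ring
  have hψe : ∀ α, ψ (-α) = ψ α := fun α => by rw [hψ, hψ, abs_neg]
  -- the limit
  have hsum : ∀ {g : ℝ → ℝ}, Continuous g → ∫ α, ψ α * g α = ((∫ α, max 0 (b + δ - |α|) * g α) -
      (∫ α, max 0 (b - |α|) * g α) - (∫ α, max 0 (a - |α|) * g α) +
      ∫ α, max 0 (a - δ - |α|) * g α) / δ := by
    intro g hg
    have i1 := tent_integrable (b + δ) hg
    have i2 := tent_integrable b hg
    have i3 := tent_integrable a hg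
    have i4 := tent_integrable (a - δ) hg
    have i12 : Integrable fun α : ℝ => max 0 (b + δ - |α|) * g α - max 0 (b - |α|) * g α :=
      i1.sub i2
    have i123 : Integrable fun α : ℝ => max 0 (b + δ - |α|) * g α - max 0 (b - |α|) * g α -
      max 0 (a - |α|) * g α := i12.sub i3
    rw [← integral_sub i1 i2, ← integral_sub i12 i3,
      ← integral_add i123 i4, ← integral_div]
    refine integral_congr_ae (ae_of_all _ fun α => ?_)
    simp only
    rw [hψ]
    ring
  have hlim : Tendsto (fun T => ∫ α, ψ α * Fr T α) atTop (𝓝 (∫ α, ψ α * mn α)) := by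
    have t1 := tent_limRH RH (h := b + δ) (by linarith) (by linarith)
    have t2 := tent_limRH RH (h := b) (by linarith) hb
    have t3 := tent_limRH RH (h := a) ha (by linarith)
    have t4 := tent_limRH RH (h := a - δ) (by linarith) (by linarith)
    have t5 := (((t1.sub t2).sub t3).add t4).div_const δ
    have e1 : (b + δ + (∫ α, max 0 (b + δ - |α|) * mn α) - (b + ∫ α, max 0 (b - |α|) * mn α) -
        (a + ∫ α, max 0 (a - |α|) * mn α) + (a - δ + ∫ α, max 0 (a - δ - |α|) * mn α)) / δ =
        ∫ α, ψ α * mn α := by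
      rw [hsum mn_cont]
      ring
    rw [e1] at t5
    refine t5.congr fun T => ?_
    rw [hsum (Fr_cont T)]
  have hhalf : ∀ {g : ℝ → ℝ}, Continuous g → (∀ α, g (-α) = g α) →
      ∫ α, ψ α * g α = 2 * ((∫ α in (0 : ℝ)..(a - δ), ψ α * g α) +
        (∫ α in (a - δ)..a, ψ α * g α) + (∫ α in a..b, ψ α * g α) +
        ∫ α in b..(b + δ), ψ α * g α) := by
    intro g hg hge
    have c1 : Continuous fun α => ψ α * g α := hψc.mul hg
    have ci : ∀ p q : ℝ, IntervalIntegrable (fun α => ψ α * g α) volume p q :=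
      fun p q => c1.intervalIntegrable p q
    rw [int_supp (show 0 < b + δ by linarith) (fun x hx => by rw [hψs x hx, zero_mul]),
      intervalIntegral.integral_add_adjacent_intervals (ci _ _) (ci _ _),
      intervalIntegral.integral_add_adjacent_intervals (ci _ _) (ci _ _),
      intervalIntegral.integral_add_adjacent_intervals (ci _ _) (ci _ _),
      ← intervalIntegral.integral_add_adjacent_intervals (b := 0) (ci _ _) (ci _ _)]
    have : ∫ α in (-(b + δ))..0, ψ α * g α = ∫ α in (0 : ℝ)..(b + δ), ψ α * g α := by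
      have h6 := intervalIntegral.integral_comp_neg (a := 0) (b := b + δ)
        (fun α => ψ α * g α)
      rw [neg_zero] at h6
      rw [← h6]
      refine intervalIntegral.integral_congr fun α _ => ?_
      show ψ (-α) * g (-α) = ψ α * g α
      rw [hψe, hge]
    rw [this]
    ring
  have hmn : ∫ α, ψ α * mn α ≤ 2 * (∫ α in a..b, mn α) + 4 * δ := by
    rw [hhalf mn_cont mn_even]
    have z0 : ∫ α in (0 : ℝ)..(a - δ), ψ α * mn α = 0 := by
      rw [intervalIntegral.integral_congr (g := fun _ => (0 : ℝ))]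
      · simp
      · intro α hα
        rw [uIcc_of_le (by linarith)] at hα
        show ψ α * mn α = 0
        rw [hψz α hα, zero_mul]
    have z1 : ∀ p q : ℝ, p ≤ q → ∫ α in p..q, ψ α * mn α ≤ q - p := by
      intro p q hpq
      calc ∫ α in p..q, ψ α * mn α ≤ ∫ α in p..q, (1 : ℝ) := by
            refine intervalIntegral.integral_mono_on hpq ((hψc.mul mn_cont).intervalIntegrable _ _)
              (by simp) fun α _ => ?_
            exact mul_le_one₀ (hψ1 α) (mn_nonneg α) (mn_le α)
        _ = _ := by simp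
    have z2 : ∫ α in a..b, ψ α * mn α = ∫ α in a..b, mn α := by
      refine intervalIntegral.integral_congr fun α hα => ?_
      rw [uIcc_of_le hab.le] at hα
      show ψ α * mn α = mn α
      rw [hψm α hα, one_mul]
    have z3 := z1 (a - δ) a (by linarith)
    have z4 := z1 b (b + δ) (by linarith)
    rw [z0, z2]
    linarith
  filter_upwards [hlim.eventually (ge_mem_nhds (show ∫ α, ψ α * mn α <
    (∫ α, ψ α * mn α) + δ by linarith)), eventually_ge_atTop 10] with T h1 h2
  have hF0 := Fr_nonneg h2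
  have hFc := Fr_cont T
  rw [hhalf hFc (Fr_even T)] at h1
  have z2 : ∫ α in a..b, ψ α * Fr T α = ∫ α in a..b, Fr T α := by
    refine intervalIntegral.integral_congr fun α hα => ?_
    rw [uIcc_of_le hab.le] at hα
    show ψ α * Fr T α = Fr T α
    rw [hψm α hα, one_mul]
  have nn : ∀ p q : ℝ, p ≤ q → 0 ≤ ∫ α in p..q, ψ α * Fr T α := by
    intro p q hpq
    exact intervalIntegral.integral_nonneg hpq fun α _ => mul_nonneg (hψ0 α) (hF0 α)
  have n1 := nn 0 (a - δ) (by linarith)
  have n2 := nn (a - δ) a (by linarith)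
  have n3 := nn b (b + δ) (by linarith)
  rw [z2] at h1
  linarith

/-- **the negative part is at most the positive part** -/
theorem quant_neg (RH : RiemannHypothesis) (hl : l ≤ atTop) {κ R m : ℝ} (hκ0 : 0 < κ)
    (hκ1 : κ < 1) (hR : 1 ≤ R)
    (hpos : ∀ ε : ℝ, 0 < ε → ∀ᶠ T in l, ∫ α in κ..R, max 0 (Fr T α - mn α) ≤ m + ε)
    {b : ℝ} (hb1 : κ ≤ b) (hbR : b < R) {ε : ℝ} (hε : 0 < ε) :
    ∀ᶠ T in l, ∫ α in κ..b, max 0 (mn α - Fr T α) ≤ (m + 1 / (6 * R)) / (1 - b / R) + ε := by
  have hR0 : 0 < R := by linarith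
  have hb0 : 0 < b := by linarith
  have hκR : κ ≤ R := hb1.trans hbR.le
  have hG0 : ∀ᶠ T in l, ∀ α, 0 ≤ Fr T α :=
    hl ((eventually_ge_atTop 10).mono fun T hT α => Fr_nonneg hT α)
  have hbR1 : 0 < 1 - b / R := by
    have : b / R < 1 := by rwa [div_lt_one hR0]
    linarith
  obtain ⟨w, hw⟩ : ∃ w : ℝ, w = tr R b := ⟨_, rfl⟩
  have hw' : w = (1 - b / R) / R := by rw [hw, tr_eq hR0 (by linarith) hbR.le]
  have hw1 : 0 < w := by rw [hw']; positivity
  obtain ⟨e, he⟩ : ∃ e : ℝ, e = ε * w / 8 := ⟨_, rfl⟩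
  have he0 : 0 < e := by rw [he]; positivity
  -- near zero
  obtain ⟨δ0, hδ0, hnear⟩ := near0 RH (η := R * e) (by positivity)
  obtain ⟨δ, hδ⟩ : ∃ δ : ℝ, δ = min δ0 (κ / 2) := ⟨_, rfl⟩
  have hδ1 : 0 < δ := by rw [hδ]; exact lt_min hδ0 (by positivity)
  have hδ2 : δ ≤ δ0 := by rw [hδ]; exact min_le_left _ _
  have hδ3 : δ < κ := by
    have : δ ≤ κ / 2 := by rw [hδ]; exact min_le_right _ _
    linarith
  have htc := tr_cont R
  have htn : ∀ x, 0 ≤ tr R x := fun x => tr_nonneg hR0 x
  have ht1 : ∀ x, tr R x ≤ 1 / R := by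
    intro x
    unfold tr
    apply div_le_div_of_nonneg_right _ hR0.le
    apply max_le (by norm_num)
    have : 0 ≤ |x| / R := by positivity
    linarith
  have m1 : ∀ᶠ T in l, ∫ α in δ..κ, tr R α * Fr T α ≤ (∫ α in δ..κ, tr R α * mn α) + e :=
    up_weight (fun T => Fr_cont T) hG0 mn_cont mn_nonneg hδ3
      (fun a'' b'' g1 g2 g3 ε' hε' => hl (up_in RH (hδ1.trans_le g1) g2 (g3.trans_lt hκ1) hε'))
      htc (fun x _ => htn x) he0
  filter_upwards [m1, hpos (R * e) (by positivity), hl (hnear δ hδ1 hδ2), hl (diag_low hR0 he0), hG0]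
    with T h1 h2 h4 h5 hF0
  have hFc := Fr_cont T
  have hci : ∀ {g : ℝ → ℝ}, Continuous g → ∀ p q : ℝ, IntervalIntegrable g volume p q :=
    fun hg p q => hg.intervalIntegrable p q
  have c1 : Continuous fun α => tr R α * Fr T α := htc.mul hFc
  have c2 : Continuous fun α => tr R α * mn α := htc.mul mn_cont
  have cP : Continuous fun α => tr R α * max 0 (Fr T α - mn α) :=
    htc.mul (continuous_const.max (hFc.sub mn_cont))
  have cN : Continuous fun α => tr R α * max 0 (mn α - Fr T α) :=
    htc.mul (continuous_const.max (mn_cont.sub hFc))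
  have cQ : Continuous fun α => tr R α * mn α + tr R α * max 0 (Fr T α - mn α) := c2.add cP
  -- the decomposition
  have d1 : ∫ α, tr R α * Fr T α = (∫ α in (-δ)..δ, tr R α * Fr T α) +
      2 * ((∫ α in δ..κ, tr R α * Fr T α) + ∫ α in κ..R, tr R α * Fr T α) := by
    rw [int_supp hR0 (fun x hx => by rw [tr_supp hR0 x hx, zero_mul])]
    rw [intervalIntegral.integral_add_adjacent_intervals (hci c1 _ _) (hci c1 _ _)]
    rw [← intervalIntegral.integral_add_adjacent_intervals (a := -R) (b := -δ) (c := R)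
      (hci c1 _ _) (hci c1 _ _), ← intervalIntegral.integral_add_adjacent_intervals (a := -δ)
      (b := δ) (c := R) (hci c1 _ _) (hci c1 _ _)]
    have : ∫ α in (-R)..(-δ), tr R α * Fr T α = ∫ α in δ..R, tr R α * Fr T α := by
      have h6 := intervalIntegral.integral_comp_neg (a := δ) (b := R)
        (fun α => tr R α * Fr T α)
      rw [← h6]
      refine intervalIntegral.integral_congr fun α _ => ?_
      rw [tr_even, Fr_even]
    rw [this]
    ring
  have d2 : ∫ α in (-δ)..δ, tr R α * Fr T α ≤ 1 / R * (1 + R * e) := by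
    calc ∫ α in (-δ)..δ, tr R α * Fr T α ≤ ∫ α in (-δ)..δ, 1 / R * Fr T α := by
          refine intervalIntegral.integral_mono_on (by linarith) (hci c1 _ _)
            (hci (continuous_const.mul hFc) _ _) fun α _ => ?_
          exact mul_le_mul_of_nonneg_right (ht1 α) (hF0 α)
      _ = 1 / R * ∫ α in (-δ)..δ, Fr T α := intervalIntegral.integral_const_mul _ _
      _ ≤ _ := by gcongr
  have d3 : ∫ α in (0 : ℝ)..R, tr R α * mn α = (∫ α in (0 : ℝ)..δ, tr R α * mn α) +
      (∫ α in δ..κ, tr R α * mn α) + ∫ α in κ..R, tr R α * mn α := by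
    rw [intervalIntegral.integral_add_adjacent_intervals (hci c2 _ _) (hci c2 _ _),
      intervalIntegral.integral_add_adjacent_intervals (hci c2 _ _) (hci c2 _ _)]
  have d4 : 0 ≤ ∫ α in (0 : ℝ)..δ, tr R α * mn α :=
    intervalIntegral.integral_nonneg hδ1.le fun x _ => mul_nonneg (htn x) (mn_nonneg x)
  rw [tr_mn hR] at d3
  have d5 : ∫ α in κ..R, tr R α * Fr T α = (∫ α in κ..R, tr R α * mn α) +
      (∫ α in κ..R, tr R α * max 0 (Fr T α - mn α)) -
      ∫ α in κ..R, tr R α * max 0 (mn α - Fr T α) := by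
    rw [← intervalIntegral.integral_add (hci c2 _ _) (hci cP _ _),
      ← intervalIntegral.integral_sub (hci cQ _ _) (hci cN _ _)]
    refine intervalIntegral.integral_congr fun α _ => ?_
    rcases le_total (Fr T α) (mn α) with h | h
    · rw [max_eq_left (by linarith : Fr T α - mn α ≤ 0),
        max_eq_right (by linarith : 0 ≤ mn α - Fr T α)]
      ring
    · rw [max_eq_right (by linarith : 0 ≤ Fr T α - mn α),
        max_eq_left (by linarith : mn α - Fr T α ≤ 0)]
      ring
  have d6 : ∫ α in κ..R, tr R α * max 0 (Fr T α - mn α) ≤ 1 / R * (m + R * e) := by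
    refine le_trans ?_ (mul_le_mul_of_nonneg_left h2 (by positivity))
    rw [← intervalIntegral.integral_const_mul]
    refine intervalIntegral.integral_mono_on hκR (hci cP _ _)
      (hci (continuous_const.mul (continuous_const.max (hFc.sub mn_cont))) _ _) fun α _ => ?_
    exact mul_le_mul_of_nonneg_right (ht1 α) (le_max_left _ _)
  have d7 : w * ∫ α in κ..b, max 0 (mn α - Fr T α) ≤
      ∫ α in κ..R, tr R α * max 0 (mn α - Fr T α) := by
    rw [← intervalIntegral.integral_const_mul,
      ← intervalIntegral.integral_add_adjacent_intervals (b := b) (hci cN κ b) (hci cN b R)]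
    have k1 : ∫ α in κ..b, w * max 0 (mn α - Fr T α) ≤
        ∫ α in κ..b, tr R α * max 0 (mn α - Fr T α) := by
      refine intervalIntegral.integral_mono_on hb1
        (hci (continuous_const.mul (continuous_const.max (mn_cont.sub hFc))) _ _)
        (hci cN _ _) fun α hα => ?_
      apply mul_le_mul_of_nonneg_right _ (le_max_left _ _)
      have h0 : 0 ≤ α := by linarith [hα.1]
      rw [hw', tr_eq hR0 h0 (by linarith [hα.2])]
      have h3 : α / R ≤ b / R := by gcongr; exact hα.2
      gcongr
    have k2 : 0 ≤ ∫ α in b..R, tr R α * max 0 (mn α - Fr T α) :=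
      intervalIntegral.integral_nonneg hbR.le fun α _ => mul_nonneg (htn α) (le_max_left _ _)
    linarith
  have hRe : 1 / R * (1 + R * e) = 1 / R + e := by field_simp
  rw [hRe] at d2
  have hRe2 : 1 / R * (m + R * e) = m / R + e := by field_simp
  rw [hRe2] at d6
  have hRR : 1 / (2 * R) = 1 / R / 2 := by field_simp
  rw [hRR] at d3
  have key : w * ∫ α in κ..b, max 0 (mn α - Fr T α) ≤ m / R + 1 / (6 * R ^ 2) + 4 * e := by
    linarith
  have k2 : w * ∫ α in κ..b, max 0 (mn α - Fr T α) ≤
      w * ((m + 1 / (6 * R)) / (1 - b / R) + ε) := by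
    have e0 : 8 * e = w * ε := by rw [he]; ring
    have hne : 1 - b / R ≠ 0 := hbR1.ne'
    have e1 : w * ((m + 1 / (6 * R)) / (1 - b / R)) = m / R + 1 / (6 * R ^ 2) := by
      rw [hw', div_mul_div_comm, mul_comm R, ← div_mul_div_comm, div_self hne, one_mul]
      field_simp
    rw [mul_add, e1, ← e0]
    linarith
  exact le_of_mul_le_mul_left k2 hw1

end Pool.Agent.U252.PC
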