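import Pool.Agent.U252.PC.Low5

/-! # The two halves of the asymptotic formula: equivalences -/

set_option autoImplicit false

open MeasureTheory Set Filter Topology
open scoped NNReal ENNReal

namespace Pool.Agent.U252.PC

open Pool.Agent.Y749.Rig

variable {l : Filter ℝ}

/-- `limsup` of the integral of the positive part -/
def PosLe (l : Filter ℝ) (κ A x : ℝ) : Prop := ∀ ε : ℝ, 0 < ε → ∀ᶠ T in l,
  ∫ α in κ..A, max 0 (Fr T α - mn α) ≤ x + ε

/-- `limsup` of the integral of the negative part -/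
def NegLe (l : Filter ℝ) (κ A x : ℝ) : Prop := ∀ ε : ℝ, 0 < ε → ∀ᶠ T in l,
  ∫ α in κ..A, max 0 (mn α - Fr T α) ≤ x + ε

theorem neg_le_pos (RH : RiemannHypothesis) (hl : l ≤ atTop) {κ x : ℝ} (hκ0 : 0 < κ)
    (hκ1 : κ < 1) (hx : 0 ≤ x) (hpos : ∀ A : ℝ, κ ≤ A → PosLe l κ A x) {b : ℝ} (hb : κ ≤ b) :
    NegLe l κ b x := by
  intro ε hε
  have hb0 : 0 < b := hκ0.trans_le hb
  obtain ⟨R, hR⟩ : ∃ R : ℝ, R = 1 + b + 1 / ε + 4 * b * (x + ε + 1) / ε := ⟨_, rfl⟩
  have hR1 : 1 ≤ R := by
    rw [hR]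
    have : 0 < 1 / ε + 4 * b * (x + ε + 1) / ε := by positivity
    linarith
  have hRb : b < R := by
    rw [hR]
    have : 0 < 1 / ε + 4 * b * (x + ε + 1) / ε := by positivity
    linarith
  have hR0 : 0 < R := by linarith
  have h1 : 1 / (6 * R) ≤ ε / 6 := by
    have h2 : 1 / ε ≤ R := by
      rw [hR]
      have : 0 < 4 * b * (x + ε + 1) / ε := by positivity
      linarith
    rw [div_le_iff₀ hε] at h2
    rw [div_le_div_iff₀ (by positivity) (by norm_num)]
    linarith
  have h2 : b / R * (x + ε + 1) ≤ ε / 4 := by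
    have h3 : 4 * b * (x + ε + 1) / ε ≤ R := by
      rw [hR]
      have : 0 < 1 / ε := by positivity
      linarith
    rw [div_le_iff₀ hε] at h3
    rw [div_mul_eq_mul_div, div_le_div_iff₀ hR0 (by norm_num)]
    linarith
  have h3 : 0 < 1 - b / R := by
    have : b / R < 1 := by rwa [div_lt_one hR0]
    linarith
  have h4 : (x + 1 / (6 * R)) / (1 - b / R) ≤ x + ε / 2 := by
    rw [div_le_iff₀ h3]
    have h5 : (x + ε / 2) * (1 - b / R) = x + ε / 2 - b / R * (x + ε / 2) := by ring
    have h6 : b / R * (x + ε / 2) ≤ b / R * (x + ε + 1) :=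
      mul_le_mul_of_nonneg_left (by linarith) (by positivity)
    linarith
  filter_upwards [quant_neg RH hl hκ0 hκ1 hR1 (hpos R (hb.trans hRb.le)) hb hRb
    (show 0 < ε / 2 by positivity)] with T hT
  linarith

lemma abs_eq_pos_neg (T α : ℝ) : |Fr T α - mn α| =
    max 0 (Fr T α - mn α) + max 0 (mn α - Fr T α) := by
  rcases le_total (Fr T α) (mn α) with h | h
  · rw [abs_of_nonpos (by linarith), max_eq_left (by linarith : Fr T α - mn α ≤ 0),
      max_eq_right (by linarith : 0 ≤ mn α - Fr T α)]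
    ring
  · rw [abs_of_nonneg (by linarith), max_eq_right (by linarith : 0 ≤ Fr T α - mn α),
      max_eq_left (by linarith : mn α - Fr T α ≤ 0)]
    ring

lemma int_abs (T κ A : ℝ) : ∫ α in κ..A, |Fr T α - mn α| =
    (∫ α in κ..A, max 0 (Fr T α - mn α)) + ∫ α in κ..A, max 0 (mn α - Fr T α) := by
  have hFc := Fr_cont T
  have cP : Continuous fun α => max 0 (Fr T α - mn α) :=
    continuous_const.max (hFc.sub mn_cont)
  have cN : Continuous fun α => max 0 (mn α - Fr T α) :=
    continuous_const.max (mn_cont.sub hFc)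
  rw [← intervalIntegral.integral_add (cP.intervalIntegrable _ _) (cN.intervalIntegrable _ _)]
  exact intervalIntegral.integral_congr fun α _ => abs_eq_pos_neg T α

/-- an upper bound for the positive part on `[κ, A]`, `κ < 1`, implies upper bounds for the means -/
theorem up_of_pos (RH : RiemannHypothesis) (hl : l ≤ atTop) {κ : ℝ}
    (hκ1 : κ < 1) (hpos : ∀ A : ℝ, κ ≤ A → PosLe l κ A 0) (R : ℝ) : MeanUp l R := by
  have key : ∀ a b : ℝ, κ ≤ a → a < b → ∀ ε : ℝ, 0 < ε → ∀ᶠ T in l,
      ∫ α in a..b, Fr T α ≤ (∫ α in a..b, mn α) + ε := by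
    intro a b ha hab ε hε
    filter_upwards [hpos b (ha.trans hab.le) ε hε] with T hT
    rw [zero_add] at hT
    have hFc := Fr_cont T
    have cP : Continuous fun α => max 0 (Fr T α - mn α) :=
      continuous_const.max (hFc.sub mn_cont)
    have ci : ∀ {g : ℝ → ℝ}, Continuous g → ∀ p q : ℝ, IntervalIntegrable g volume p q :=
      fun hg p q => hg.intervalIntegrable p q
    have h1 : ∫ α in a..b, Fr T α ≤ ∫ α in a..b, (mn α + max 0 (Fr T α - mn α)) := by
      refine intervalIntegral.integral_mono_on hab.le (ci hFc _ _) (ci (mn_cont.add cP) _ _)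
        fun α _ => ?_
      have := le_max_right 0 (Fr T α - mn α)
      linarith
    rw [intervalIntegral.integral_add (ci mn_cont _ _) (ci cP _ _)] at h1
    have h2 := intervalIntegral.integral_add_adjacent_intervals (ci cP κ a) (ci cP a b)
    have h3 : 0 ≤ ∫ α in κ..a, max 0 (Fr T α - mn α) :=
      intervalIntegral.integral_nonneg ha fun α _ => le_max_left _ _
    linarith
  intro a b ha hab _ ε hε
  rcases le_or_gt κ a with h1 | h1
  · exact key a b h1 hab ε hε
  · rcases lt_or_ge b 1 with h2 | h2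
    · exact hl (up_in RH ha hab h2 hε)
    · filter_upwards [hl (up_in RH ha h1 hκ1 (show 0 < ε / 2 by positivity)),
        key κ b le_rfl (by linarith) (ε / 2) (by positivity)] with T h3 h4
      have ci : ∀ {g : ℝ → ℝ}, Continuous g → ∀ p q : ℝ, IntervalIntegrable g volume p q :=
        fun hg p q => hg.intervalIntegrable p q
      have s1 := intervalIntegral.integral_add_adjacent_intervals (ci mn_cont a κ)
        (ci mn_cont κ b)
      have s2 := intervalIntegral.integral_add_adjacent_intervals (ci (Fr_cont T) a κ)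
        (ci (Fr_cont T) κ b)
      linarith

/-- the conclusion of the conjecture from upper bounds for the means -/
theorem lim_of_up (RH : RiemannHypothesis) (hl : l ≤ atTop) (h : ∀ R : ℝ, MeanUp l R) :
    ∀ α β, α < β → Tendsto (fun T => Pool.Agent.Y744.Nr T α β) l
      (𝓝 (Pool.Agent.Y744.pr α β)) := fun _ _ hαβ =>
  Pool.Agent.Y744.Nr_all hl (Aa_lim hl (weak_mean RH hl (mean_lim RH hl h))) hαβ

/-- the negative part vanishes in the limit -/
def NegZero (l : Filter ℝ) (κ : ℝ) : Prop := ∀ A : ℝ, κ ≤ A → NegLe l κ A 0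

/-- the positive part vanishes in the limit -/
def PosZero (l : Filter ℝ) (κ : ℝ) : Prop := ∀ A : ℝ, κ ≤ A → PosLe l κ A 0

theorem pos_zero_of (RH : RiemannHypothesis) (hl : l ≤ atTop) {κ : ℝ} (hκ0 : 0 < κ)
    (hκ1 : κ ≤ 1) (h : NegZero l κ) (hrep : Rep l) : PosZero l κ :=
  fun _ hA _ hε => pos_le_neg RH hl hκ0 hκ1 le_rfl h hrep hA hε

theorem neg_zero_of (RH : RiemannHypothesis) (hl : l ≤ atTop) {κ : ℝ} (hκ0 : 0 < κ)
    (hκ1 : κ < 1) (h : PosZero l κ) : NegZero l κ ∧ Rep l :=
  ⟨fun _ hA => neg_le_pos RH hl hκ0 hκ1 le_rfl h hA,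
    (low_of_lim RH hl (lim_of_up RH hl (up_of_pos RH hl hκ1 h))).2⟩

end Pool.Agent.U252.PC
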